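import Pool.Agent.Work.MP_b5d674_co.P.Rat

namespace Pool.Agent.Work.MP_b5d674_co.P

open Finset

theorem tail_tele (a s j0 : ℕ) (h : a + 2 * s ≤ 2 * j0) (n : ℕ) :
    2 * s * ∑ j ∈ range n, a.choose (j0 + j) + (j0 + n) * a.choose (j0 + n) ≤
      j0 * a.choose j0 := by
  induction n with
  | zero => simp
  | succ n ih =>
    rw [sum_range_succ, mul_add, add_assoc]
    refine le_trans (Nat.add_le_add_left ?_ _) ih
    have h1 := Nat.choose_succ_right_eq a (j0 + n)
    rw [← add_assoc j0 n 1, mul_comm (j0 + n + 1), h1]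
    rcases le_or_gt (j0 + n) a with h2 | h2
    · rw [mul_comm (a.choose (j0 + n)), ← add_mul]
      exact Nat.mul_le_mul_right _ (by omega)
    · simp [Nat.choose_eq_zero_of_lt h2]

theorem tail_nat {α : Type*} [DecidableEq α] (Y : Finset α) (s l : ℕ)
    (hl : (Y.card + 1) / 2 + s ≤ l) :
    2 * s * (Y.powerset.filter fun U => l ≤ U.card).card ≤
      Y.card * Y.card.choose ((Y.card + 1) / 2 + s) := by
  set j0 := (Y.card + 1) / 2 + s with hj
  have h1 : (Y.powerset.filter fun U => l ≤ U.card) ⊆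
      (range (Y.card + 1)).biUnion fun j => powersetCard (j0 + j) Y := by
    intro U hU
    rw [mem_filter, mem_powerset] at hU
    have := card_le_card hU.1
    refine mem_biUnion.2 ⟨U.card - j0, mem_range.2 (by omega), mem_powersetCard.2 ⟨hU.1, by omega⟩⟩
  have h2 := (card_le_card h1).trans card_biUnion_le
  simp only [card_powersetCard] at h2
  have h3 := tail_tele Y.card s j0 (by omega) (Y.card + 1)
  have h4 : j0 * Y.card.choose j0 ≤ Y.card * Y.card.choose j0 := by
    rcases le_or_gt j0 Y.card with h | h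
    · exact Nat.mul_le_mul_right _ h
    · simp [Nat.choose_eq_zero_of_lt h]
  have h5 := Nat.mul_le_mul_left (2 * s) h2
  omega

/-- The number of large subsets, with the Mills factor. -/
theorem tail_card {α : Type*} [DecidableEq α] (Y : Finset α) (s l : ℕ) (hs : 1 ≤ s)
    (hl : (Y.card + 1) / 2 + s ≤ l) :
    ((Y.powerset.filter fun U => l ≤ U.card).card : ℝ) ≤
      (Y.card : ℝ) / (2 * s) * (Y.card.choose (Y.card / 2) : ℝ) *
        Real.exp (-(2 * (s : ℝ) ^ 2 / ((Y.card : ℝ) + 2 * s))) := by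
  have h1 : (2 * s * ((Y.powerset.filter fun U => l ≤ U.card).card : ℝ)) ≤
      (Y.card : ℝ) * Y.card.choose ((Y.card + 1) / 2 + s) := by
    exact_mod_cast tail_nat Y s l hl
  have h2 := mul_le_mul_of_nonneg_left (choose_up Y.card s) (Nat.cast_nonneg (α := ℝ) Y.card)
  have hs' : (0 : ℝ) < 2 * s := by positivity
  rw [mul_assoc, div_mul_eq_mul_div, le_div_iff₀ hs', mul_comm]
  exact h1.trans h2

end Pool.Agent.Work.MP_b5d674_co.P
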