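import Pool.Agent.Work.MP_b5d674_co.P.Cen
import Pool.Agent.Work.MP_b5d674_co.P.Tail

namespace Pool.Agent.Work.MP_b5d674_co.P

open Finset

theorem bad_mid (a b : ℕ) (h : b ≤ 4 * a) :
    (a.choose (a / 2) : ℝ) * (b * (b.choose (b / 2) : ℝ)) ≤ 2 * 2 ^ (a + b) := by
  have h1 := choose_half_up a
  have h2 := choose_half_up b
  have h3 : (b : ℝ) ≤ 4 * a := by exact_mod_cast h
  refine le_of_sq_le_sq (le_trans (b := 4 * 4 ^ a * 4 ^ b) ?_ (le_of_eq ?_)) (by positivity)
  · calc _ = (b * (a.choose (a / 2) : ℝ) ^ 2) * (b * (b.choose (b / 2) : ℝ) ^ 2) := by ring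
      _ ≤ (4 * a * (a.choose (a / 2) : ℝ) ^ 2) * 4 ^ b :=
          mul_le_mul (mul_le_mul_of_nonneg_right h3 (by positivity)) h2 (by positivity)
            (by positivity)
      _ ≤ _ := by
          rw [mul_assoc 4 (a : ℝ)]
          exact mul_le_mul_of_nonneg_right (mul_le_mul_of_nonneg_left h1 (by norm_num))
            (by positivity)
  · rw [show (4 : ℝ) = 2 ^ 2 by norm_num, ← pow_mul, ← pow_mul]; ring

/-- Sets of one layer above the middle with a small trace on `N`. -/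
theorem bad_card {r : ℕ} (N : Finset (Fin r)) (μ D : ℕ) (hD : 1 ≤ D) (hs : D < μ) (hr : 1 ≤ r)
    (h1 : r ≤ 4 * N.card) :
    ((((univ : Finset (Fin r)).powersetCard (r / 2 + μ)).filter
        fun S => 2 * (S ∩ N).card < N.card + D).card : ℝ) ≤
      2 ^ r / ((μ : ℝ) - D) *
        Real.exp (-(2 * ((μ : ℝ) - D) ^ 2 / ((r : ℝ) - N.card + 2 * ((μ : ℝ) - D)))) := by
  have hc : N.card + Nᶜ.card = r := by rw [card_add_card_compl, Fintype.card_fin]
  set Big := (Nᶜ).powerset.filter fun U => (Nᶜ.card + 1) / 2 + (μ - D) ≤ U.card with hBig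
  have hsub : (((univ : Finset (Fin r)).powersetCard (r / 2 + μ)).filter
      fun S => 2 * (S ∩ N).card < N.card + D) ⊆
      Big.biUnion fun U => (N.powersetCard (r / 2 + μ - U.card)).image fun V => U ∪ V := by
    intro S hS
    rw [mem_filter, mem_powersetCard] at hS
    have e := card_sdiff_add_card_inter S N
    refine mem_biUnion.2 ⟨S \ N, mem_filter.2 ⟨mem_powerset.2 fun x hx =>
      mem_compl.2 (mem_sdiff.1 hx).2, by omega⟩, mem_image.2 ⟨S ∩ N,
        mem_powersetCard.2 ⟨inter_subset_right, by omega⟩, sdiff_union_inter S N⟩⟩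
  have h2 := (card_le_card hsub).trans (card_biUnion_le.trans (sum_le_card_nsmul _ _
    (N.card.choose (N.card / 2)) fun U _ => card_image_le.trans (by
      rw [card_powersetCard]; exact Nat.choose_le_middle _ _)))
  rw [smul_eq_mul] at h2
  have h3 := tail_card Nᶜ (μ - D) _ (by omega) le_rfl
  have h4 := bad_mid N.card Nᶜ.card (by omega)
  have e1 : ((μ - D : ℕ) : ℝ) = (μ : ℝ) - D := Nat.cast_sub hs.le
  have e2 : (Nᶜ.card : ℝ) = (r : ℝ) - N.card := by
    rw [eq_sub_iff_add_eq']; exact_mod_cast hc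
  have s0 : (0 : ℝ) < (μ : ℝ) - D := sub_pos.2 (by exact_mod_cast hs)
  rw [hc] at h4
  rw [e1, ← hBig] at h3
  rw [← e2]
  set E := Real.exp (-(2 * ((μ : ℝ) - D) ^ 2 / ((Nᶜ.card : ℝ) + 2 * ((μ : ℝ) - D)))) with hE
  have E0 : 0 < E := Real.exp_pos _
  calc _ ≤ (Big.card : ℝ) * (N.card.choose (N.card / 2) : ℝ) := by exact_mod_cast h2
    _ ≤ _ := mul_le_mul_of_nonneg_right h3 (Nat.cast_nonneg _)
    _ = (N.card.choose (N.card / 2) : ℝ) * (Nᶜ.card * (Nᶜ.card.choose (Nᶜ.card / 2) : ℝ)) *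
        (E / (2 * ((μ : ℝ) - D))) := by ring
    _ ≤ 2 * 2 ^ r * (E / (2 * ((μ : ℝ) - D))) := mul_le_mul_of_nonneg_right h4 (by positivity)
    _ = _ := by field_simp

/-- Sets with a small trace on one cell. -/
theorem cell_card {r : ℕ} (Q : Finset (Fin r)) (u : ℕ) (hu : 1 ≤ u) (hQ : Q.card = 10 * u) :
    (((univ : Finset (Finset (Fin r))).filter fun S => (S ∩ Q).card < 4 * u).card : ℝ) ≤
      5 * 2 ^ r * Real.exp (-((u : ℝ) / 6)) := by
  have hc : Q.card + Qᶜ.card = r := by rw [card_add_card_compl, Fintype.card_fin]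
  set Big := Q.powerset.filter fun U => (Q.card + 1) / 2 + u ≤ U.card with hBig
  have h2 : ((univ : Finset (Finset (Fin r))).filter fun S => (S ∩ Q).card < 4 * u).card
      ≤ (Big ×ˢ (Qᶜ).powerset).card := by
    refine card_le_card_of_injOn (fun S => (Q \ S, S \ Q)) (fun S hS => ?_) fun S _ S' _ h => ?_
    · have h1 := (mem_filter.1 (mem_coe.1 hS)).2
      have e := card_sdiff_add_card_inter Q S
      rw [inter_comm] at e
      exact mem_coe.2 (mem_product.2 ⟨mem_filter.2 ⟨mem_powerset.2 sdiff_subset, by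
        show (Q.card + 1) / 2 + u ≤ (Q \ S).card
        omega⟩, mem_powerset.2 fun x hx => mem_compl.2 (mem_sdiff.1 hx).2⟩)
    · obtain ⟨a, b⟩ := Prod.mk.inj h
      ext x
      have a1 := Finset.ext_iff.1 a x
      have b1 := Finset.ext_iff.1 b x
      simp only [mem_sdiff] at a1 b1
      tauto
  rw [card_product, card_powerset] at h2
  have h3 := tail_card Q u _ hu le_rfl
  rw [← hBig] at h3
  have h4 : (Q.card.choose (Q.card / 2) : ℝ) ≤ 2 ^ Q.card := by
    exact_mod_cast Nat.choose_le_two_pow _ _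
  have u0 : (0 : ℝ) < u := by exact_mod_cast hu
  have e1 : (Q.card : ℝ) = 10 * u := by exact_mod_cast hQ
  have e2 : (Q.card : ℝ) / (2 * u) = 5 := by rw [e1]; field_simp; norm_num
  have e3 : 2 * (u : ℝ) ^ 2 / (Q.card + 2 * u) = u / 6 := by rw [e1]; field_simp; norm_num
  rw [e2, e3] at h3
  calc _ ≤ (Big.card : ℝ) * 2 ^ Qᶜ.card := by exact_mod_cast h2
    _ ≤ 5 * 2 ^ Q.card * Real.exp (-((u : ℝ) / 6)) * 2 ^ Qᶜ.card :=
        mul_le_mul_of_nonneg_right (h3.trans (by gcongr)) (by positivity)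
    _ = 5 * 2 ^ (Q.card + Qᶜ.card) * Real.exp (-((u : ℝ) / 6)) := by ring
    _ = _ := by rw [hc]

end Pool.Agent.Work.MP_b5d674_co.P
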