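import Mathlib

namespace Pool.Agent.Work.MP_b5d674_co.P

theorem cen_step (n : ℕ) :
    ((n : ℝ) + 1) * ((n + 1).centralBinom : ℝ) = 2 * (2 * n + 1) * (n.centralBinom : ℝ) := by
  exact_mod_cast Nat.succ_mul_centralBinom_succ n

theorem cen_up (n : ℕ) : (2 * (n : ℝ) + 1) * (n.centralBinom : ℝ) ^ 2 ≤ 16 ^ n := by
  induction n with
  | zero => simp
  | succ n ih =>
    have h := cen_step n
    have hn : (0 : ℝ) ≤ n := Nat.cast_nonneg n
    have hp : (0 : ℝ) < ((n : ℝ) + 1) ^ 2 := by positivity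
    refine le_of_mul_le_mul_left ?_ hp
    have hq : (0 : ℝ) ≤ (2 * (n : ℝ) + 1) * (n.centralBinom : ℝ) ^ 2 := by positivity
    have e : ((n : ℝ) + 1) ^ 2 * ((2 * ((n + 1 : ℕ) : ℝ) + 1) * ((n + 1).centralBinom : ℝ) ^ 2)
        = (4 * ((2 * n + 3) * (2 * n + 1))) * ((2 * (n : ℝ) + 1) * (n.centralBinom : ℝ) ^ 2) := by
      push_cast
      calc _ = (2 * (n : ℝ) + 3) * (((n : ℝ) + 1) * ((n + 1).centralBinom : ℝ)) ^ 2 := by ring
        _ = _ := by rw [h]; ring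
    rw [e, pow_succ (16 : ℝ)]
    calc _ ≤ (16 * ((n : ℝ) + 1) ^ 2) * ((2 * (n : ℝ) + 1) * (n.centralBinom : ℝ) ^ 2) :=
          mul_le_mul_of_nonneg_right (by nlinarith) hq
      _ ≤ (16 * ((n : ℝ) + 1) ^ 2) * 16 ^ n := mul_le_mul_of_nonneg_left ih (by positivity)
      _ = _ := by ring

theorem cen_low (n : ℕ) :
    (16 : ℝ) ^ (n + 1) ≤ 4 * ((n : ℝ) + 1) * ((n + 1).centralBinom : ℝ) ^ 2 := by
  induction n with
  | zero => norm_num [Nat.centralBinom]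
  | succ n ih =>
    have h := cen_step (n + 1)
    have hn : (0 : ℝ) ≤ n := Nat.cast_nonneg n
    have hp : (0 : ℝ) < (n : ℝ) + 2 := by positivity
    refine le_of_mul_le_mul_left ?_ hp
    have hq : (0 : ℝ) ≤ ((n + 1).centralBinom : ℝ) ^ 2 := by positivity
    push_cast at h ⊢
    have e : ((n : ℝ) + 2) * (4 * ((n : ℝ) + 1 + 1) * ((n + 1 + 1).centralBinom : ℝ) ^ 2)
        = (16 * (2 * n + 3) ^ 2) * ((n + 1).centralBinom : ℝ) ^ 2 := by
      calc _ = 4 * (((n : ℝ) + 1 + 1) * ((n + 1 + 1).centralBinom : ℝ)) ^ 2 := by ring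
        _ = _ := by rw [h]; ring
    rw [e, pow_succ (16 : ℝ)]
    calc _ = (16 * ((n : ℝ) + 2)) * 16 ^ (n + 1) := by ring
      _ ≤ (16 * ((n : ℝ) + 2)) * (4 * ((n : ℝ) + 1) * ((n + 1).centralBinom : ℝ) ^ 2) :=
          mul_le_mul_of_nonneg_left ih (by positivity)
      _ = (64 * ((n : ℝ) + 2) * (n + 1)) * ((n + 1).centralBinom : ℝ) ^ 2 := by ring
      _ ≤ _ := mul_le_mul_of_nonneg_right (by nlinarith) hq

theorem cen_odd (n : ℕ) : ((n + 1).centralBinom : ℝ) = 2 * ((2 * n + 1).choose n : ℝ) := by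
  have h : (n + 1).centralBinom = 2 * (2 * n + 1).choose n := by
    rw [Nat.centralBinom_eq_two_mul_choose, show 2 * (n + 1) = (2 * n + 1) + 1 by ring,
      Nat.choose_succ_succ', Nat.choose_symm_half]
    ring
  exact_mod_cast h

/-- Upper bound for the middle binomial coefficient. -/
theorem choose_half_up (a : ℕ) : (a : ℝ) * (a.choose (a / 2) : ℝ) ^ 2 ≤ 4 ^ a := by
  obtain ⟨n, rfl | rfl⟩ := Nat.even_or_odd' a
  · have h := cen_up n
    rw [show 2 * n / 2 = n by omega, ← Nat.centralBinom_eq_two_mul_choose, pow_mul (4 : ℝ)]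
    push_cast
    norm_num
    nlinarith [sq_nonneg (n.centralBinom : ℝ)]
  · have h := cen_up (n + 1)
    rw [cen_odd, pow_succ (16 : ℝ)] at h
    rw [show (2 * n + 1) / 2 = n by omega, pow_succ (4 : ℝ), pow_mul (4 : ℝ)]
    push_cast at h ⊢
    norm_num
    nlinarith [sq_nonneg ((2 * n + 1).choose n : ℝ)]

/-- Lower bound for the middle binomial coefficient. -/
theorem choose_half_low (a : ℕ) (ha : 1 ≤ a) :
    (4 : ℝ) ^ a ≤ 4 * a * (a.choose (a / 2) : ℝ) ^ 2 := by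
  obtain ⟨n, rfl | rfl⟩ := Nat.even_or_odd' a
  · obtain ⟨k, rfl⟩ : ∃ k, n = k + 1 := ⟨n - 1, by omega⟩
    have h := cen_low k
    rw [show 2 * (k + 1) / 2 = k + 1 by omega, ← Nat.centralBinom_eq_two_mul_choose, pow_mul (4 : ℝ)]
    have hk : (0 : ℝ) ≤ ((k : ℝ) + 1) * ((k + 1).centralBinom : ℝ) ^ 2 := by positivity
    push_cast
    rw [show (4 : ℝ) ^ 2 = 16 by norm_num]
    nlinarith
  · have h := cen_low n
    rw [cen_odd, pow_succ (16 : ℝ)] at h
    rw [show (2 * n + 1) / 2 = n by omega, pow_succ (4 : ℝ), pow_mul (4 : ℝ)]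
    have hk : (0 : ℝ) ≤ (n : ℝ) * ((2 * n + 1).choose n : ℝ) ^ 2 := by positivity
    push_cast
    rw [show (4 : ℝ) ^ 2 = 16 by norm_num]
    nlinarith

end Pool.Agent.Work.MP_b5d674_co.P
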