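import Pool.Agent.Work.MP_b5d674_co.P.Tail

namespace Pool.Agent.Work.MP_b5d674_co.P

open Finset

theorem Code_bad (l η : ℕ) (hη : 1 ≤ η) (χ : Fin l → Bool) :
    (((univ : Finset (Fin l → Bool)).filter fun ψ =>
      (l + 1) / 2 + η ≤ (univ.filter fun τ => ψ τ = χ τ).card).card : ℝ) ≤
      l * Real.exp (-(2 * (η : ℝ) ^ 2 / ((l : ℝ) + 2 * η))) * 2 ^ l := by
  have h1 : ((univ : Finset (Fin l → Bool)).filter fun ψ =>
      (l + 1) / 2 + η ≤ (univ.filter fun τ => ψ τ = χ τ).card).card ≤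
      ((univ : Finset (Fin l)).powerset.filter fun U => (l + 1) / 2 + η ≤ U.card).card := by
    refine card_le_card_of_injOn (fun ψ => univ.filter fun τ => ψ τ = χ τ) ?_ ?_
    · intro ψ hψ
      rw [mem_coe, mem_filter] at hψ ⊢
      exact ⟨mem_powerset.2 (subset_univ _), hψ.2⟩
    · intro ψ _ ψ' _ e
      funext τ
      have e' : (ψ τ = χ τ) ↔ (ψ' τ = χ τ) := by
        have := Finset.ext_iff.1 e τ
        simpa using this
      revert e'
      cases ψ τ <;> cases ψ' τ <;> cases χ τ <;> simp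
  have h2 := tail_card (univ : Finset (Fin l)) η ((l + 1) / 2 + η) hη (by simp)
  rw [card_univ, Fintype.card_fin] at h2
  have h3 : (l.choose (l / 2) : ℝ) ≤ 2 ^ l := by exact_mod_cast Nat.choose_le_two_pow l _
  have h4 : (l : ℝ) / (2 * η) ≤ l := by
    have : (1 : ℝ) ≤ η := by exact_mod_cast hη
    exact div_le_self (Nat.cast_nonneg _) (by linarith)
  calc _ ≤ _ := Nat.cast_le.2 h1
    _ ≤ _ := h2
    _ ≤ l * 2 ^ l * Real.exp (-(2 * (η : ℝ) ^ 2 / ((l : ℝ) + 2 * η))) := by gcongr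
    _ = _ := by ring

theorem Code_next (l η n : ℕ) (hη : 1 ≤ η)
    (h : (n : ℝ) * l * Real.exp (-(2 * (η : ℝ) ^ 2 / ((l : ℝ) + 2 * η))) < 1)
    (χ : Fin n → Fin l → Bool) :
    ∃ ψ : Fin l → Bool, ∀ k, l ≤ 2 * (univ.filter fun τ => ψ τ ≠ χ k τ).card + 2 * η := by
  have h1 : ((univ : Finset (Fin n)).biUnion fun k => (univ : Finset (Fin l → Bool)).filter
      fun ψ => (l + 1) / 2 + η ≤ (univ.filter fun τ => ψ τ = χ k τ).card).card <
      (univ : Finset (Fin l → Bool)).card := by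
    refine lt_of_le_of_lt card_biUnion_le ?_
    rw [← Nat.cast_lt (α := ℝ), Nat.cast_sum]
    refine lt_of_le_of_lt (sum_le_sum fun k _ => Code_bad l η hη (χ k)) ?_
    rw [sum_const, card_univ, card_univ, Fintype.card_fin, Fintype.card_fun, Fintype.card_fin,
      Fintype.card_bool, nsmul_eq_mul, ← mul_assoc, ← mul_assoc]
    push_cast
    exact mul_lt_of_lt_one_left (by positivity) h
  obtain ⟨ψ, -, hψ⟩ := exists_mem_notMem_of_card_lt_card h1
  refine ⟨ψ, fun k => ?_⟩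
  have h2 : ¬ (l + 1) / 2 + η ≤ (univ.filter fun τ => ψ τ = χ k τ).card := fun hk =>
    hψ (mem_biUnion.2 ⟨k, mem_univ _, mem_filter.2 ⟨mem_univ _, hk⟩⟩)
  have h3 := card_filter_add_card_filter_not (s := (univ : Finset (Fin l)))
    (fun τ => ψ τ = χ k τ)
  rw [card_univ, Fintype.card_fin] at h3
  change l ≤ 2 * (univ.filter fun τ => ¬ ψ τ = χ k τ).card + 2 * η
  omega

/-- A greedy code with distance close to one half. -/
theorem exists_code (l η n : ℕ) (hη : 1 ≤ η)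
    (h : (n : ℝ) * l * Real.exp (-(2 * (η : ℝ) ^ 2 / ((l : ℝ) + 2 * η))) < 1) :
    ∃ χ : Fin n → Fin l → Bool, ∀ k k', k ≠ k' →
      l ≤ 2 * (univ.filter fun τ => χ k τ ≠ χ k' τ).card + 2 * η := by
  induction n with
  | zero => exact ⟨fun k => k.elim0, fun k => k.elim0⟩
  | succ n ih =>
    have h' : (n : ℝ) * l * Real.exp (-(2 * (η : ℝ) ^ 2 / ((l : ℝ) + 2 * η))) < 1 := by
      refine lt_of_le_of_lt ?_ h
      gcongr
      omega
    obtain ⟨χ, hχ⟩ := ih h'
    obtain ⟨ψ, hψ⟩ := Code_next l η n hη h' χ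
    refine ⟨Fin.cons ψ χ, fun k k' => ?_⟩
    refine Fin.cases ?_ (fun k => ?_) k <;> refine Fin.cases ?_ (fun k' => ?_) k' <;> intro hk
    · exact absurd rfl hk
    · exact hψ k'
    · have := hψ k
      simp only [Fin.cons_zero, Fin.cons_succ]
      rwa [filter_congr (q := fun τ => ψ τ ≠ χ k τ) fun τ _ => ne_comm]
    · exact hχ k k' fun e => hk (by rw [e])

/-- Disjoint cells of equal size with a type function. -/
theorem exists_cells (r l K c : ℕ) (hl : 0 < l) (h : l * K * c ≤ r) :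
    ∃ (ty : Fin r → Fin l) (Q : Fin l → Fin K → Finset (Fin r)),
      (∀ τ β, (Q τ β).card = c) ∧
      (∀ τ β τ' β', (τ, β) ≠ (τ', β') → Disjoint (Q τ β) (Q τ' β')) ∧
      (∀ τ β, ∀ i ∈ Q τ β, ty i = τ) ∧
      ∀ A : Finset (Fin l), A.card * K * c ≤ (univ.filter fun i => ty i ∈ A).card := by
  obtain ⟨e⟩ : Nonempty ((Fin l × Fin K) × Fin c ↪ Fin r) :=
    Function.Embedding.nonempty_of_card_le (by simpa using h)
  obtain ⟨ty, hty⟩ : ∃ ty : Fin r → Fin l, ∀ p, ty (e p) = p.1.1 :=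
    ⟨Function.extend e (fun p => p.1.1) fun _ => ⟨0, hl⟩, fun p => e.injective.extend_apply _ _ p⟩
  refine ⟨ty, fun τ β => univ.image fun j => e ((τ, β), j), fun τ β => ?_,
    fun τ β τ' β' hne => ?_, fun τ β i hi => ?_, fun A => ?_⟩
  · rw [card_image_of_injective _ fun j j' hj => (Prod.ext_iff.1 (e.injective hj)).2]
    simp
  · rw [disjoint_left]
    intro i hi hi'
    obtain ⟨j, -, rfl⟩ := mem_image.1 hi
    obtain ⟨j', -, hj⟩ := mem_image.1 hi'
    exact hne (Prod.ext_iff.1 (e.injective hj)).1.symm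
  · obtain ⟨j, -, rfl⟩ := mem_image.1 hi
    exact hty _
  · have h1 : ((A ×ˢ (univ : Finset (Fin K))) ×ˢ (univ : Finset (Fin c))).card =
        A.card * K * c := by simp
    rw [← h1, ← card_map e]
    refine card_le_card fun i hi => ?_
    obtain ⟨p, hp, rfl⟩ := mem_map.1 hi
    rw [mem_filter, hty]
    exact ⟨mem_univ _, (mem_product.1 (mem_product.1 hp).1).1⟩

end Pool.Agent.Work.MP_b5d674_co.P
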