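import Mathlib

namespace Pool.Agent.Work.MP_b5d674_co.P

open Finset

variable {r K : ℕ} {ι L α : Type*}

/-- The positions where two patterns differ. -/
def dis (p : ι → Fin r → Bool) (k k' : ι) : Finset (Fin r) := univ.filter fun i => p k i ≠ p k' i

/-- The supports used for the family `k`. -/
def Good (p : ι → Fin r → Bool) (Q : L → Fin K → Finset (Fin r)) (m a D : ℕ) (k : ι)
    (S : Finset (Fin r)) : Prop :=
  S.card = m ∧ (∀ τ β, a ≤ (S ∩ Q τ β).card) ∧
    ∀ k', k' ≠ k → (dis p k k').card + D ≤ 2 * (S ∩ dis p k k').card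

/-- The word with the pattern `k` on `S` and the letter `x` elsewhere. -/
def word (x : α) (y : Bool → α) (p : ι → Fin r → Bool) (k : ι) (S : Finset (Fin r)) :
    Fin r → α := fun i => if i ∈ S then y (p k i) else x

/-- The positions where a letter is blocked. -/
def blk [DecidableEq α] (B : Finset (Fin r × α)) (c : α) : Finset (Fin r) :=
  univ.filter fun i => (i, c) ∈ B

theorem mem_blk [DecidableEq α] {B : Finset (Fin r × α)} {c : α} {i : Fin r} :
    i ∈ blk B c ↔ (i, c) ∈ B := by simp [blk]

theorem exists_free [Fintype α] [DecidableEq α] (hα : r < Fintype.card α)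
    {B : Finset (Fin r × α)} (hB : B.card ≤ r) (i : Fin r) : ∃ c, (i, c) ∉ B := by
  by_contra h
  push Not at h
  have : (univ : Finset α).card ≤ B.card :=
    card_le_card_of_injOn (fun c => (i, c)) (fun c _ => h c) fun a _ b _ hab => (Prod.mk.inj hab).2
  rw [card_univ] at this
  omega

theorem blk_sum [DecidableEq α] (B : Finset (Fin r × α)) {x : α} {y : Bool → α}
    (hy : Function.Injective y) (hx : ∀ s, y s ≠ x) :
    (blk B x).card + ((blk B (y true)).card + (blk B (y false)).card) ≤ B.card := by
  have h : ∀ c, (blk B c).card = (B.filter fun z => z.2 = c).card := by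
    intro c
    refine card_bij (fun i _ => (i, c)) ?_ ?_ ?_
    · intro i hi
      exact mem_filter.2 ⟨mem_blk.1 hi, rfl⟩
    · intro a _ b _ hab
      exact (Prod.mk.inj hab).1
    · rintro ⟨i, c'⟩ hz
      obtain ⟨h1, h2⟩ := mem_filter.1 hz
      simp only at h2
      subst h2
      exact ⟨i, mem_blk.2 h1, rfl⟩
  have htf : y true ≠ y false := fun h => by simpa using hy h
  rw [h, h, h, ← card_union_of_disjoint, ← card_union_of_disjoint]
  · exact card_le_card (union_subset (filter_subset _ _)
      (union_subset (filter_subset _ _) (filter_subset _ _)))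
  · rw [disjoint_union_right]
    exact ⟨disjoint_filter.2 fun z _ h1 h2 => hx true (h2.symm.trans h1),
      disjoint_filter.2 fun z _ h1 h2 => hx false (h2.symm.trans h1)⟩
  · exact disjoint_filter.2 fun z _ h1 h2 => htf (h1.symm.trans h2)

/-- The edge that follows the signs `g` wherever this is possible. -/
def edge [DecidableEq α] (y : Bool → α) (B : Finset (Fin r × α)) (f : Fin r → α)
    (g : Fin r → Bool) : Fin r → α := fun i =>
  if (i, y (g i)) ∉ B then y (g i) else if (i, y (!g i)) ∉ B then y (!g i) else f i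

section
variable [DecidableEq α] {x : α} {y : Bool → α} {B : Finset (Fin r × α)} {f : Fin r → α}
  {p : ι → Fin r → Bool} {Q : L → Fin K → Finset (Fin r)} {m a D : ℕ}

theorem edge_free (hf : ∀ i, (i, f i) ∉ B) (g : Fin r → Bool) (i : Fin r) :
    (i, edge y B f g i) ∉ B := by
  unfold edge
  split_ifs with h1 h2
  · exact hf i
  · exact h2
  · exact h1

theorem edge_sign (g : Fin r → Bool) {i : Fin r}
    (hi : i ∉ blk B (y true) ∩ blk B (y false)) : ∃ s, edge y B f g i = y s := by
  unfold edge
  split_ifs with h1 h2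
  · exfalso
    apply hi
    rw [mem_inter, mem_blk, mem_blk]
    cases h : g i <;> simp only [h, Bool.not_false, Bool.not_true] at h1 h2
    · exact ⟨h2, h1⟩
    · exact ⟨h1, h2⟩
  · exact ⟨_, rfl⟩
  · exact ⟨_, rfl⟩

theorem miss_blk {g : Fin r → Bool} {k : ι} {S : Finset (Fin r)}
    (h : ∀ i, edge y B f g i ≠ word x y p k S i) {i : Fin r} (hi : i ∈ S) (hg : g i = p k i) :
    i ∈ blk B (y (p k i)) := by
  have := h i
  rw [mem_blk]
  by_contra hb
  apply this
  unfold edge word
  rw [hg, if_pos hb, if_pos hi]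

theorem excl {g g' : Fin r → Bool} {j : Fin r} (hg : ∀ i, i ≠ j → g i = g' i) {k k' : ι}
    {S S' : Finset (Fin r)} (hk : k ≠ k') (hS : Good p Q m a D k S) (hS' : Good p Q m a D k' S')
    (h : ∀ i, edge y B f g i ≠ word x y p k S i) (h' : ∀ i, edge y B f g' i ≠ word x y p k' S' i) :
    D ≤ (blk B (y true) ∩ blk B (y false)).card + 1 := by
  set N := dis p k k' with hN
  set Bd := blk B (y true) ∩ blk B (y false) with hBd
  have hN' : dis p k' k = N := by
    ext i
    simp [hN, dis, ne_comm, eq_comm]
  have h1 := hS.2.2 k' hk.symm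
  have h2 := hS'.2.2 k hk
  rw [hN'] at h2
  rw [← hN] at h1
  have h3 : (S ∩ N) ∩ (S' ∩ N) ⊆ insert j Bd := by
    intro i hi
    rw [mem_inter, mem_inter, mem_inter] at hi
    by_contra hc
    rw [mem_insert, not_or] at hc
    obtain ⟨s, hs⟩ := edge_sign (f := f) g hc.2
    have e1 : edge y B f g' i = y s := by
      rw [← hs]
      unfold edge
      rw [hg i hc.1]
    have a1 := h i
    have a2 := h' i
    unfold word at a1 a2
    rw [if_pos hi.1.1, hs] at a1
    rw [if_pos hi.2.1, e1] at a2
    have a3 : p k i ≠ p k' i := (mem_filter.1 hi.1.2).2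
    have b1 : s ≠ p k i := fun e => a1 (by rw [e])
    have b2 : s ≠ p k' i := fun e => a2 (by rw [e])
    revert a3 b1 b2
    cases s <;> cases p k i <;> cases p k' i <;> simp
  have h4 := card_union_add_card_inter (S ∩ N) (S' ∩ N)
  have h5 : ((S ∩ N) ∪ (S' ∩ N)).card ≤ N.card :=
    card_le_card (union_subset inter_subset_right inter_subset_right)
  have h6 := (card_le_card h3).trans (card_insert_le _ _)
  omega

theorem case_one (hb : (blk B (y true)).card + (blk B (y false)).card ≤ m)
    (hd : (blk B (y true) ∩ blk B (y false)).card + 2 ≤ D) :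
    ∃ g : Fin r → Bool, ∀ k S k' S', Good p Q m a D k S → Good p Q m a D k' S' →
      (∀ i, edge y B f g i ≠ word x y p k S i) → (∀ i, edge y B f g i ≠ word x y p k' S' i) →
      k = k' ∧ S = S' := by
  classical
  by_contra hc
  push Not at hc
  have one : ∀ {g g' : Fin r → Bool}, (∃ j : Option (Fin r), ∀ i, some i ≠ j → g i = g' i) →
      ∀ {k k' S S'}, Good p Q m a D k S → Good p Q m a D k' S' →
      (∀ i, edge y B f g i ≠ word x y p k S i) → (∀ i, edge y B f g' i ≠ word x y p k' S' i) →
      k = k' := by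
    rintro g g' ⟨j, hj⟩ k k' S S' hS hS' h h'
    by_contra hk
    have hN : (dis p k k').Nonempty := by
      have := hS.2.2 k' (Ne.symm hk)
      have h2 : (S ∩ dis p k k').Nonempty := card_pos.1 (by omega)
      exact h2.mono inter_subset_right
    obtain ⟨i0, -⟩ := hN
    have := excl (j := j.getD i0) (g := g) (g' := g') (fun i hi => hj i fun e => hi (by
      rw [← e]; rfl)) hk hS hS' h h'
    omega
  obtain ⟨k, S0, -, -, hS0, -, h0, -, -⟩ := hc fun _ => true
  have step : ∀ U : Finset (Fin r), ∃ S, Good p Q m a D k S ∧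
      ∀ i, edge y B f (fun i => if i ∈ U then p k i else true) i ≠ word x y p k S i := by
    intro U
    induction U using Finset.induction_on with
    | empty => exact ⟨S0, hS0, by simpa using h0⟩
    | insert j U _ ih =>
      obtain ⟨S, hS, h⟩ := ih
      obtain ⟨k', S', -, -, hS', -, h', -, -⟩ :=
        hc fun i => if i ∈ insert j U then p k i else true
      have e : k = k' := one ⟨some j, fun i hi => by
        have : i ≠ j := fun e => hi (by rw [e])
        simp [this]⟩ hS hS' h h'
      subst e
      exact ⟨S', hS', h'⟩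
  obtain ⟨S, hS, h⟩ := step univ
  simp only [mem_univ, if_true] at h
  obtain ⟨k1, S1, k2, S2, hS1, hS2, h1, h2, hne⟩ := hc (p k)
  have e1 : k = k1 := one ⟨none, fun _ _ => rfl⟩ hS hS1 h h1
  have e2 : k = k2 := one ⟨none, fun _ _ => rfl⟩ hS hS2 h h2
  subst e1 e2
  have sub : ∀ {T}, Good p Q m a D k T → (∀ i, edge y B f (p k) i ≠ word x y p k T i) →
      T = blk B (y true) ∪ blk B (y false) := by
    intro T hT hh
    refine eq_of_subset_of_card_le (fun i hi => ?_) ?_
    · have := miss_blk hh hi rfl
      rw [mem_union]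
      cases e : p k i <;> rw [e] at this
      · exact Or.inr this
      · exact Or.inl this
    · rw [hT.1]
      exact (card_union_le _ _).trans hb
  exact hne rfl ((sub hS1 h1).trans (sub hS2 h2).symm)

end

end Pool.Agent.Work.MP_b5d674_co.P
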