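import Mathlib

namespace Pool.Agent.Work.MP_b5d674_co.P

/-- The layer is not much smaller than the middle layer. -/
theorem num_ratio (t r C0 Cm : ℝ) (ht : 1000 ≤ t) (hr : t ^ 22 ≤ r) (hC0 : 0 < C0)
    (hL : C0 * Real.exp (-(2 * (t ^ 12) ^ 2 / (r - 2 * t ^ 12))) ≤ Cm) :
    C0 ≤ Real.exp (4 * t ^ 2) * Cm := by
  have ht0 : 0 < t := by linarith
  have h10 : (4 : ℝ) ≤ t ^ 10 :=
    le_trans (by linarith) (le_self_pow₀ (by linarith : (1 : ℝ) ≤ t) (by norm_num))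
  have h12 : 0 < t ^ 12 := by positivity
  have h22 : 4 * t ^ 12 ≤ t ^ 22 := by
    have : t ^ 22 = t ^ 10 * t ^ 12 := by ring
    rw [this]; exact mul_le_mul_of_nonneg_right h10 h12.le
  have hd : 0 < r - 2 * t ^ 12 := by linarith
  have hE : 2 * (t ^ 12) ^ 2 / (r - 2 * t ^ 12) ≤ 4 * t ^ 2 := by
    rw [div_le_iff₀ hd]
    have h1 : t ^ 22 / 2 ≤ r - 2 * t ^ 12 := by linarith
    have h2 : 2 * (t ^ 12) ^ 2 = 4 * t ^ 2 * (t ^ 22 / 2) := by ring
    rw [h2]; exact mul_le_mul_of_nonneg_left h1 (by positivity)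
  have h3 : C0 * Real.exp (-(4 * t ^ 2)) ≤ Cm :=
    le_trans (mul_le_mul_of_nonneg_left (Real.exp_le_exp.2 (by linarith)) hC0.le) hL
  have h4 : C0 = Real.exp (4 * t ^ 2) * (C0 * Real.exp (-(4 * t ^ 2))) := by
    rw [mul_left_comm, ← Real.exp_add, add_neg_cancel, Real.exp_zero, mul_one]
  rw [h4]
  exact mul_le_mul_of_nonneg_left h3 (Real.exp_pos _).le

/-- The sets that fail in some cell are at most a quarter of the layer. -/
theorem num_cell (t r P C0 Cm M : ℝ) (ht : 10 ^ 30 ≤ t) (hr : t ^ 22 ≤ r) (hr' : r ≤ 2 * t ^ 22)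
    (hP0 : 0 ≤ P) (hC0 : 0 < C0) (hP : P ^ 2 ≤ 4 * r * C0 ^ 2)
    (hC : C0 ≤ Real.exp (4 * t ^ 2) * Cm) (hM : M ≤ r) :
    M * (5 * P * Real.exp (-(30 * t ^ 2 / 6))) ≤ Cm / 4 := by
  have ht1 : (1 : ℝ) ≤ t := le_trans (by norm_num) ht
  have ht0 : 0 < t := by linarith
  have hr1 : 1 ≤ r := le_trans (one_le_pow₀ ht1) hr
  have hCm : 0 < Cm := by
    by_contra h
    have := mul_nonpos_of_nonneg_of_nonpos (Real.exp_pos (4 * t ^ 2)).le (not_lt.1 h)
    linarith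
  have hP1 : P ≤ 2 * r * C0 := by
    refine (pow_le_pow_iff_left₀ hP0 (by positivity) two_ne_zero).1 (hP.trans ?_)
    have h1 : 4 * r ≤ 4 * r ^ 2 := by nlinarith
    calc 4 * r * C0 ^ 2 ≤ 4 * r ^ 2 * C0 ^ 2 := mul_le_mul_of_nonneg_right h1 (by positivity)
      _ = (2 * r * C0) ^ 2 := by ring
  have hx : 160 * t ^ 44 ≤ Real.exp (t ^ 2) := by
    refine le_trans ?_ (Real.pow_div_factorial_le_exp (t ^ 2) (by positivity) 23)
    rw [le_div_iff₀ (by positivity)]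
    have h1 : (160 * (Nat.factorial 23 : ℝ)) ≤ t ^ 2 := by
      refine le_trans ?_ (le_self_pow₀ ht1 two_ne_zero)
      refine le_trans ?_ ht
      norm_num [Nat.factorial]
    calc 160 * t ^ 44 * (Nat.factorial 23 : ℝ) = 160 * (Nat.factorial 23 : ℝ) * t ^ 44 := by ring
      _ ≤ t ^ 2 * t ^ 44 := mul_le_mul_of_nonneg_right h1 (by positivity)
      _ = (t ^ 2) ^ 23 := by ring
  have he : Real.exp (4 * t ^ 2) * Real.exp (-(30 * t ^ 2 / 6)) * Real.exp (t ^ 2) = 1 := by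
    rw [← Real.exp_add, ← Real.exp_add, ← Real.exp_zero]; congr 1; ring
  set A := Real.exp (4 * t ^ 2)
  set B := Real.exp (-(30 * t ^ 2 / 6))
  set D := Real.exp (t ^ 2)
  have hA : 0 < A := Real.exp_pos _
  have hB : 0 < B := Real.exp_pos _
  have hr2 : r ^ 2 ≤ 4 * t ^ 44 := by
    calc r ^ 2 ≤ (2 * t ^ 22) ^ 2 := pow_le_pow_left₀ (by linarith) hr' 2
      _ = 4 * t ^ 44 := by ring
  calc M * (5 * P * B) ≤ r * (5 * P * B) := mul_le_mul_of_nonneg_right hM (by positivity)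
    _ ≤ r * (5 * (2 * r * (A * Cm)) * B) := by
        have : P ≤ 2 * r * (A * Cm) := hP1.trans (mul_le_mul_of_nonneg_left hC (by positivity))
        gcongr
    _ = (40 * r ^ 2) * (A * B * Cm / 4) := by ring
    _ ≤ D * (A * B * Cm / 4) := mul_le_mul_of_nonneg_right (by linarith) (by positivity)
    _ = (A * B * D) * Cm / 4 := by ring
    _ = Cm / 4 := by rw [he, one_mul]

/-- The greedy code is large enough. -/
theorem num_code (t C0 Cm n : ℝ) (ht : 1000 ≤ t) (hCm : 0 < Cm)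
    (hC : C0 ≤ Real.exp (4 * t ^ 2) * Cm) (hn : n ≤ 2 * (t / (48 * Real.exp 40) * C0 / Cm)) :
    n * t ^ 7 * Real.exp (-(2 * (t ^ 5) ^ 2 / (t ^ 7 + 2 * t ^ 5))) < 1 := by
  have ht0 : 0 < t := by linarith
  have he40 : (1 : ℝ) ≤ Real.exp 40 := Real.one_le_exp (by norm_num)
  have h1 : C0 / Cm ≤ Real.exp (4 * t ^ 2) := (div_le_iff₀ hCm).2 hC
  have h2 : 2 * (t / (48 * Real.exp 40)) ≤ t := by
    rw [← mul_div_assoc, div_le_iff₀ (by positivity)]
    nlinarith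
  have hn' : n ≤ t * Real.exp (4 * t ^ 2) := by
    calc n ≤ 2 * (t / (48 * Real.exp 40)) * (C0 / Cm) := by rw [mul_assoc, ← mul_div_assoc]; exact hn
      _ ≤ 2 * (t / (48 * Real.exp 40)) * Real.exp (4 * t ^ 2) :=
        mul_le_mul_of_nonneg_left h1 (by positivity)
      _ ≤ t * Real.exp (4 * t ^ 2) := mul_le_mul_of_nonneg_right h2 (Real.exp_pos _).le
  have hE : t ^ 3 ≤ 2 * (t ^ 5) ^ 2 / (t ^ 7 + 2 * t ^ 5) := by
    rw [le_div_iff₀ (by positivity)]
    have h3 : 2 * t ^ 8 ≤ t ^ 2 * t ^ 8 := mul_le_mul_of_nonneg_right (by nlinarith) (by positivity)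
    nlinarith
  have ht8 : t ^ 8 ≤ Real.exp (8 * t) := by
    have h4 : t ≤ Real.exp t := by linarith [Real.add_one_le_exp t]
    calc t ^ 8 ≤ Real.exp t ^ 8 := pow_le_pow_left₀ ht0.le h4 8
      _ = Real.exp (8 * t) := by rw [← Real.exp_nat_mul]; norm_num
  calc n * t ^ 7 * Real.exp (-(2 * (t ^ 5) ^ 2 / (t ^ 7 + 2 * t ^ 5)))
      ≤ t * Real.exp (4 * t ^ 2) * t ^ 7 * Real.exp (-t ^ 3) := by
        refine le_trans (mul_le_mul_of_nonneg_right
          (mul_le_mul_of_nonneg_right hn' (by positivity)) (Real.exp_pos _).le) ?_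
        exact mul_le_mul_of_nonneg_left (Real.exp_le_exp.2 (by linarith)) (by positivity)
    _ = t ^ 8 * (Real.exp (4 * t ^ 2) * Real.exp (-t ^ 3)) := by ring
    _ ≤ Real.exp (8 * t) * (Real.exp (4 * t ^ 2) * Real.exp (-t ^ 3)) :=
        mul_le_mul_of_nonneg_right ht8 (by positivity)
    _ = Real.exp (8 * t + (4 * t ^ 2 + -t ^ 3)) := by rw [Real.exp_add, Real.exp_add]
    _ < 1 := by
        rw [Real.exp_lt_one_iff]
        have h5 : 1000 * t ≤ t ^ 2 := by nlinarith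
        have h6 : 1000 * t ^ 2 ≤ t ^ 3 := by nlinarith
        linarith

/-- The final gain. -/
theorem num_gain (t r : ℝ) (ht : 2 * (96 * Real.exp 40) ^ 23 < t) (hr0 : 0 ≤ r)
    (hr' : r ≤ 2 * t ^ 22) : r ^ ((1 : ℝ) / 23) < t / (48 * Real.exp 40) / 2 := by
  have hc : 0 < 96 * Real.exp 40 := by positivity
  have ht0 : 0 < t := lt_trans (by positivity) ht
  have h1 : r < (t / (96 * Real.exp 40)) ^ 23 := by
    rw [div_pow, lt_div_iff₀ (by positivity)]
    calc r * (96 * Real.exp 40) ^ 23 ≤ 2 * t ^ 22 * (96 * Real.exp 40) ^ 23 :=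
          mul_le_mul_of_nonneg_right hr' (by positivity)
      _ = 2 * (96 * Real.exp 40) ^ 23 * t ^ 22 := by ring
      _ < t * t ^ 22 := mul_lt_mul_of_pos_right ht (by positivity)
      _ = t ^ 23 := by ring
  have h2 := Real.rpow_lt_rpow hr0 h1 (by norm_num : (0 : ℝ) < 1 / 23)
  have h3 : ((t / (96 * Real.exp 40)) ^ 23) ^ ((1 : ℝ) / 23) = t / (96 * Real.exp 40) := by
    have := Real.pow_rpow_inv_natCast (x := t / (96 * Real.exp 40)) (by positivity)
      (n := 23) (by norm_num)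
    rw [one_div]
    exact_mod_cast this
  rw [h3] at h2
  refine h2.trans_eq ?_
  rw [div_div]; congr 1; ring

end Pool.Agent.Work.MP_b5d674_co.P
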