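import Mathlib

namespace Pool.Agent.Work.MP_b5d674_co.P

theorem Num_pow (t : ℝ) (ht : 1000 ≤ t) (a b : ℕ) (hab : a < b) : 1000 * t ^ a ≤ t ^ b := by
  have h1 : (1 : ℝ) ≤ t := by linarith
  have h2 : t ^ (a + 1) ≤ t ^ b := pow_le_pow_right₀ h1 hab
  have h3 : 0 ≤ t ^ a := by positivity
  calc 1000 * t ^ a ≤ t * t ^ a := mul_le_mul_of_nonneg_right ht h3
    _ = t ^ (a + 1) := by ring
    _ ≤ t ^ b := h2

theorem Num_abs (m s r u w : ℝ) (hs : 0 < s) (hr : 4 * m ≤ r) (hm : 0 < m) (hw0 : 0 < w)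
    (hw : 2 * w ≤ r + u) :
    4 * m ^ 2 / (r - 2 * m) - 2 * s ^ 2 / w ≤
      (4 * (m ^ 2 - s ^ 2) * r + 16 * m ^ 3 + 4 * s ^ 2 * u) / r ^ 2 := by
  have hr0 : 0 < r := by linarith
  have hd : 0 < r - 2 * m := by linarith
  have hA : 4 * m ^ 2 / (r - 2 * m) ≤ (4 * m ^ 2 * r + 16 * m ^ 3) / r ^ 2 := by
    rw [div_le_div_iff₀ hd (by positivity)]
    have h1 : 0 ≤ m ^ 3 * (r - 4 * m) := mul_nonneg (by positivity) (by linarith)
    nlinarith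
  have hB : (4 * s ^ 2 * r - 4 * s ^ 2 * u) / r ^ 2 ≤ 2 * s ^ 2 / w := by
    rw [div_le_div_iff₀ (by positivity) hw0]
    have hs2 : 0 < s ^ 2 := by positivity
    have key : 2 * (r - u) * w ≤ r ^ 2 := by
      rcases le_total u r with h | h
      · have : (r - u) * (2 * w) ≤ (r - u) * (r + u) :=
          mul_le_mul_of_nonneg_left hw (by linarith)
        nlinarith [sq_nonneg u]
      · have : (r - u) * w ≤ 0 := mul_nonpos_of_nonpos_of_nonneg (by linarith) hw0.le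
        nlinarith [sq_nonneg r]
    have := mul_le_mul_of_nonneg_left key (by positivity : 0 ≤ 2 * s ^ 2)
    nlinarith
  have hE : (4 * (m ^ 2 - s ^ 2) * r + 16 * m ^ 3 + 4 * s ^ 2 * u) / r ^ 2 =
      (4 * m ^ 2 * r + 16 * m ^ 3) / r ^ 2 - (4 * s ^ 2 * r - 4 * s ^ 2 * u) / r ^ 2 := by
    ring
  rw [hE]
  linarith

theorem Num_D (t : ℝ) (ht : 1000 ≤ t) : 600 * t ^ 9 + 2 ≤ 601 * t ^ 9 := by
  have h := Num_pow t ht 0 9 (by norm_num)
  simp at h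
  linarith

theorem Num_s (t : ℝ) (ht : 1000 ≤ t) : t ^ 12 / 2 ≤ t ^ 12 - (600 * t ^ 9 + 2) := by
  have h1 := Num_D t ht
  have h2 := Num_pow t ht 9 10 (by norm_num)
  have h3 := Num_pow t ht 10 12 (by norm_num)
  have h4 : 0 ≤ t ^ 9 := by positivity
  linarith

/-- The two Gaussian exponents cancel up to a constant. -/
theorem num_lam (t r h : ℝ) (ht : 1000 ≤ t) (hr : t ^ 22 ≤ r) (h0 : 0 ≤ h)
    (hh : h ≤ r / 2 + 2 * r / t ^ 2) :
    4 * (t ^ 12) ^ 2 / (r - 2 * t ^ 12) -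
      2 * (t ^ 12 - (600 * t ^ 9 + 2)) ^ 2 / (h + 2 * (t ^ 12 - (600 * t ^ 9 + 2))) ≤ 40 := by
  have ht0 : 0 < t := by linarith
  have hm : 0 < t ^ 12 := by positivity
  have hs := Num_s t ht
  have hD := Num_D t ht
  have h9 : 0 < t ^ 9 := by positivity
  have h22 : 0 < t ^ 22 := by positivity
  have hr0 : 0 < r := by linarith
  have h12 := Num_pow t ht 12 22 (by norm_num)
  set s := t ^ 12 - (600 * t ^ 9 + 2) with hsdef
  have hs0 : 0 < s := by linarith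
  have hsm : s ≤ t ^ 12 := by rw [hsdef]; linarith
  have hq : 0 ≤ r / t ^ 2 := by positivity
  have hh' : h ≤ r / 2 + 2 * (r / t ^ 2) := by rw [← mul_div_assoc]; exact hh
  have main := Num_abs (t ^ 12) s r (4 * (r / t ^ 2) + 4 * t ^ 12) (h + 2 * s) hs0
    (by linarith) hm (by linarith) (by linarith)
  refine main.trans ?_
  rw [div_le_iff₀ (by positivity)]
  have e1 : (t ^ 12) ^ 2 - s ^ 2 ≤ 2 * r := by
    have a1 : (t ^ 12) ^ 2 - s ^ 2 = (600 * t ^ 9 + 2) * (t ^ 12 + s) := by rw [hsdef]; ring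
    have a2 : (600 * t ^ 9 + 2) * (t ^ 12 + s) ≤ (601 * t ^ 9) * (2 * t ^ 12) :=
      mul_le_mul hD (by linarith) (by linarith) (by positivity)
    have a3 := Num_pow t ht 21 22 (by norm_num)
    have a4 : (601 * t ^ 9) * (2 * t ^ 12) = 1202 * t ^ 21 := by ring
    have a5 : 0 ≤ t ^ 21 := by positivity
    linarith
  have hrr : t ^ 44 ≤ r ^ 2 := by
    have : (t ^ 22) ^ 2 ≤ r ^ 2 := pow_le_pow_left₀ h22.le hr 2
    calc t ^ 44 = (t ^ 22) ^ 2 := by ring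
      _ ≤ r ^ 2 := this
  have e2 : 1000 * (t ^ 12) ^ 3 ≤ r ^ 2 := by
    have a1 := Num_pow t ht 36 44 (by norm_num)
    have a2 : (t ^ 12) ^ 3 = t ^ 36 := by ring
    rw [a2]; linarith
  have e3 : s ^ 2 ≤ (t ^ 12) ^ 2 := pow_le_pow_left₀ hs0.le hsm 2
  have e4 : (t ^ 12) ^ 2 * (r / t ^ 2) ≤ r ^ 2 := by
    have a1 : (t ^ 12) ^ 2 * (r / t ^ 2) = t ^ 22 * r := by field_simp
    rw [a1]
    nlinarith
  have e5 : s ^ 2 * (4 * (r / t ^ 2) + 4 * t ^ 12) ≤ (t ^ 12) ^ 2 * (4 * (r / t ^ 2) + 4 * t ^ 12) :=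
    mul_le_mul_of_nonneg_right e3 (by positivity)
  have e6 : ((t ^ 12) ^ 2 - s ^ 2) * r ≤ 2 * r * r := mul_le_mul_of_nonneg_right e1 hr0.le
  have e7 : (t ^ 12) ^ 2 * (4 * (r / t ^ 2) + 4 * t ^ 12) =
      4 * ((t ^ 12) ^ 2 * (r / t ^ 2)) + 4 * (t ^ 12) ^ 3 := by ring
  have e8 : 0 ≤ r ^ 2 := by positivity
  have e9 : 2 * r * r = 2 * r ^ 2 := by ring
  have e10 : 4 * ((t ^ 12) ^ 2 - s ^ 2) * r = 4 * (((t ^ 12) ^ 2 - s ^ 2) * r) := by ring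
  have e11 : 4 * s ^ 2 * (4 * (r / t ^ 2) + 4 * t ^ 12) =
      4 * (s ^ 2 * (4 * (r / t ^ 2) + 4 * t ^ 12)) := by ring
  rw [e10, e11]
  linarith

/-- The bad sets of all pairs are at most a quarter of the layer. -/
theorem num_core (t r h P C0 Cm n : ℝ) (ht : 1000 ≤ t) (hr : t ^ 22 ≤ r) (hr' : r ≤ 2 * t ^ 22)
    (h0 : 0 ≤ h) (hh : h ≤ r / 2 + 2 * r / t ^ 2) (hP0 : 0 ≤ P) (hC0 : 0 < C0) (hCm : 0 < Cm)
    (hP : P ^ 2 ≤ 4 * r * C0 ^ 2)
    (hL : C0 * Real.exp (-(2 * (t ^ 12) ^ 2 / (r - 2 * t ^ 12))) ≤ Cm)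
    (hn : n ≤ 2 * (t / (48 * Real.exp 40) * C0 / Cm)) :
    n * (P / (t ^ 12 - (600 * t ^ 9 + 2)) * Real.exp (-(2 * (t ^ 12 - (600 * t ^ 9 + 2)) ^ 2 /
      (h + 2 * (t ^ 12 - (600 * t ^ 9 + 2)))))) ≤ Cm / 4 := by
  have ht0 : 0 < t := by linarith
  have hm : 0 < t ^ 12 := by positivity
  have hs := Num_s t ht
  have hlam := num_lam t r h ht hr h0 hh
  set s := t ^ 12 - (600 * t ^ 9 + 2) with hsdef
  have hs0 : 0 < s := by linarith
  set B := 2 * s ^ 2 / (h + 2 * s) with hB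
  set A := 2 * (t ^ 12) ^ 2 / (r - 2 * t ^ 12) with hA
  have hAB : 2 * A - B ≤ 40 := by
    have : 4 * (t ^ 12) ^ 2 / (r - 2 * t ^ 12) = 2 * A := by rw [hA]; ring
    linarith
  have hP3 : P ≤ 3 * t ^ 11 * C0 := by
    have a1 : P ^ 2 ≤ (3 * t ^ 11 * C0) ^ 2 := by
      have b1 : 4 * r * C0 ^ 2 ≤ 9 * t ^ 22 * C0 ^ 2 := by
        have : 0 ≤ t ^ 22 := by positivity
        exact mul_le_mul_of_nonneg_right (by linarith) (by positivity)
      calc P ^ 2 ≤ 9 * t ^ 22 * C0 ^ 2 := hP.trans b1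
        _ = (3 * t ^ 11 * C0) ^ 2 := by ring
    exact (pow_le_pow_iff_left₀ hP0 (by positivity) (by norm_num)).mp a1
  have hPs : P / s ≤ 6 * C0 / t := by
    rw [div_le_div_iff₀ hs0 ht0]
    calc P * t ≤ 3 * t ^ 11 * C0 * t := mul_le_mul_of_nonneg_right hP3 ht0.le
      _ = 6 * C0 * (t ^ 12 / 2) := by ring
      _ ≤ 6 * C0 * s := mul_le_mul_of_nonneg_left hs (by positivity)
  have hC : C0 ≤ Cm * Real.exp A := by
    have a1 := mul_le_mul_of_nonneg_right hL (Real.exp_pos A).le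
    rwa [mul_assoc, ← Real.exp_add, neg_add_cancel, Real.exp_zero, mul_one] at a1
  have hC2 : C0 ^ 2 ≤ (Cm * Real.exp A) ^ 2 := pow_le_pow_left₀ hC0.le hC 2
  have hE : Real.exp A ^ 2 * Real.exp (-B) ≤ Real.exp 40 := by
    rw [sq, ← Real.exp_add, ← Real.exp_add]
    exact Real.exp_le_exp.mpr (by linarith)
  have hf0 : 0 ≤ P / s * Real.exp (-B) := by positivity
  have he : 0 < Real.exp 40 := Real.exp_pos _
  have heB : 0 < Real.exp (-B) := Real.exp_pos _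
  calc n * (P / s * Real.exp (-B))
      ≤ 2 * (t / (48 * Real.exp 40) * C0 / Cm) * (P / s * Real.exp (-B)) :=
        mul_le_mul_of_nonneg_right hn hf0
    _ ≤ 2 * (t / (48 * Real.exp 40) * C0 / Cm) * (6 * C0 / t * Real.exp (-B)) :=
        mul_le_mul_of_nonneg_left (mul_le_mul_of_nonneg_right hPs heB.le) (by positivity)
    _ = C0 ^ 2 * (Real.exp (-B) / (4 * Real.exp 40 * Cm)) := by field_simp; ring
    _ ≤ (Cm * Real.exp A) ^ 2 * (Real.exp (-B) / (4 * Real.exp 40 * Cm)) :=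
        mul_le_mul_of_nonneg_right hC2 (by positivity)
    _ = (Real.exp A ^ 2 * Real.exp (-B)) * (Cm / (4 * Real.exp 40)) := by field_simp
    _ ≤ Real.exp 40 * (Cm / (4 * Real.exp 40)) :=
        mul_le_mul_of_nonneg_right hE (by positivity)
    _ = Cm / 4 := by field_simp

end Pool.Agent.Work.MP_b5d674_co.P
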