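import Mathlib

namespace Pool.Agent.Work.MP_b5d674_co.P

lemma nun_pow {t : ℕ} (ht : 1000 ≤ t) (a b c : ℕ) (hc : c ≤ 1000000) (hab : a + 2 ≤ b) :
    c * t ^ a ≤ t ^ b := by
  have h1 : 1000000 ≤ t ^ 2 := by nlinarith
  calc c * t ^ a ≤ t ^ 2 * t ^ a := Nat.mul_le_mul_right _ (hc.trans h1)
    _ = t ^ (a + 2) := by ring
    _ ≤ t ^ b := Nat.pow_le_pow_right (by omega) hab

/-- The conditions on the integer parameters. -/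
theorem num_nat (t r ν h : ℕ) (ht : 1000 ≤ t) (hr : t ^ 22 ≤ r)
    (hν : t ^ 7 ≤ 2 * ν + 2 * t ^ 5)
    (hh : ν * (r / (t ^ 7 * (10 * (30 * t ^ 2)))) * (10 * (30 * t ^ 2)) ≤ h) :
    r / 2 + t ^ 12 < (t ^ 7 + ν) * (r / (t ^ 7 * (10 * (30 * t ^ 2))) - 1) * (4 * (30 * t ^ 2)) ∧
      r ≤ 4 * h ∧ (r : ℝ) - h ≤ r / 2 + 2 * r / (t : ℝ) ^ 2 := by
  have hXe : t ^ 7 * (10 * (30 * t ^ 2)) = 300 * t ^ 9 := by ring
  have hX0 : 0 < t ^ 7 * (10 * (30 * t ^ 2)) := by positivity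
  have h57 := nun_pow ht 5 7 10 (by norm_num) (by norm_num)
  have hν' : 2 * t ^ 7 ≤ 5 * ν := by omega
  have h9 := nun_pow ht 9 22 100000 (by norm_num) (by norm_num)
  have h12 := nun_pow ht 12 22 100 (by norm_num) (by norm_num)
  have h11 := nun_pow ht 11 22 300 (by norm_num) (by norm_num)
  have hlo := Nat.div_mul_le_self r (t ^ 7 * (10 * (30 * t ^ 2)))
  have hhi := Nat.lt_div_mul_add (a := r) hX0
  have hK1 : 1 ≤ r / (t ^ 7 * (10 * (30 * t ^ 2))) := by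
    rw [Nat.le_div_iff_mul_le hX0, hXe]; omega
  obtain ⟨k, hk⟩ : ∃ k, r / (t ^ 7 * (10 * (30 * t ^ 2))) = k + 1 := ⟨_, (Nat.sub_add_cancel hK1).symm⟩
  rw [hk] at hh hlo hhi ⊢
  rw [Nat.add_sub_cancel]
  have e1 : (k + 1) * (t ^ 7 * (10 * (30 * t ^ 2))) = 300 * (k * t ^ 9) + 300 * t ^ 9 := by ring
  rw [e1] at hlo hhi
  rw [hXe] at hhi
  have e2 : ν * (k + 1) * (10 * (30 * t ^ 2)) = 300 * (ν * ((k + 1) * t ^ 2)) := by ring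
  rw [e2] at hh
  have a1 : 2 * t ^ 7 * (k * t ^ 2) ≤ 5 * ν * (k * t ^ 2) := Nat.mul_le_mul_right _ hν'
  have a2 : 2 * t ^ 7 * ((k + 1) * t ^ 2) ≤ 5 * ν * ((k + 1) * t ^ 2) :=
    Nat.mul_le_mul_right _ hν'
  have a3 : t ^ 7 * ((k + 1) * t ^ 2) ≤ (2 * ν + 2 * t ^ 5) * ((k + 1) * t ^ 2) :=
    Nat.mul_le_mul_right _ hν
  have b1 : 2 * t ^ 7 * (k * t ^ 2) = 2 * (k * t ^ 9) := by ring
  have b2 : 5 * ν * (k * t ^ 2) = 5 * (ν * (k * t ^ 2)) := by ring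
  have b3 : 2 * t ^ 7 * ((k + 1) * t ^ 2) = 2 * (k * t ^ 9) + 2 * t ^ 9 := by ring
  have b4 : 5 * ν * ((k + 1) * t ^ 2) = 5 * (ν * ((k + 1) * t ^ 2)) := by ring
  have b5 : t ^ 7 * ((k + 1) * t ^ 2) = k * t ^ 9 + t ^ 9 := by ring
  have b6 : (2 * ν + 2 * t ^ 5) * ((k + 1) * t ^ 2)
      = 2 * (ν * ((k + 1) * t ^ 2)) + 2 * ((k + 1) * t ^ 7) := by ring
  have b7 : (t ^ 7 + ν) * k * (4 * (30 * t ^ 2)) = 120 * (k * t ^ 9) + 120 * (ν * (k * t ^ 2)) := by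
    ring
  refine ⟨by omega, by omega, ?_⟩
  have c1 : 2 * r ≤ r + 2 * h + (300 * t ^ 9 + 600 * ((k + 1) * t ^ 7)) := by omega
  have c2 : (300 * t ^ 9 + 600 * ((k + 1) * t ^ 7)) * t ^ 2 ≤ 4 * r := by
    have : (300 * t ^ 9 + 600 * ((k + 1) * t ^ 7)) * t ^ 2
        = 300 * t ^ 11 + 600 * (k * t ^ 9) + 600 * t ^ 9 := by ring
    omega
  have ht0 : (0 : ℝ) < (t : ℝ) ^ 2 := by
    have : (0 : ℝ) < t := by exact_mod_cast (by omega : 0 < t)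
    positivity
  have c1' : 2 * (r : ℝ) ≤ r + 2 * h + ((300 * t ^ 9 + 600 * ((k + 1) * t ^ 7) : ℕ) : ℝ) := by
    exact_mod_cast c1
  have c2' : ((300 * t ^ 9 + 600 * ((k + 1) * t ^ 7) : ℕ) : ℝ) ≤ 4 * r / (t : ℝ) ^ 2 := by
    rw [le_div_iff₀ ht0]
    exact_mod_cast c2
  have c3 : 4 * (r : ℝ) / (t : ℝ) ^ 2 = 2 * (2 * r / (t : ℝ) ^ 2) := by ring
  linarith

/-- Further conditions on the integer parameters. -/
theorem num_nat' (t r : ℕ) (ht : 1000 ≤ t) (hr : t ^ 22 ≤ r) (hr' : r < (t + 1) ^ 22) :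
    2 ≤ r / (t ^ 7 * (10 * (30 * t ^ 2))) ∧ r ≤ 2 * t ^ 22 ∧ 2 * t ^ 12 < r ∧
      600 * t ^ 9 + 2 < t ^ 12 := by
  have hXe : t ^ 7 * (10 * (30 * t ^ 2)) = 300 * t ^ 9 := by ring
  have hX0 : 0 < t ^ 7 * (10 * (30 * t ^ 2)) := by positivity
  have h9 := nun_pow ht 9 22 600 (by norm_num) (by norm_num)
  have h12 := nun_pow ht 12 22 3 (by norm_num) (by norm_num)
  have h912 := nun_pow ht 9 12 1000 (by norm_num) (by norm_num)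
  have p9 : 0 < t ^ 9 := by positivity
  have p12 : 0 < t ^ 12 := by positivity
  refine ⟨?_, ?_, by omega, by omega⟩
  · rw [Nat.le_div_iff_mul_le hX0, hXe]; omega
  · have h1 : (1000 * (t + 1)) ^ 22 ≤ (1001 * t) ^ 22 := Nat.pow_le_pow_left (by omega) 22
    rw [mul_pow, mul_pow] at h1
    have h2 : 1001 ^ 22 * t ^ 22 ≤ 2 * 1000 ^ 22 * t ^ 22 :=
      Nat.mul_le_mul_right _ (by norm_num)
    have h3 : 1000 ^ 22 * (t + 1) ^ 22 ≤ 1000 ^ 22 * (2 * t ^ 22) := by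
      calc _ ≤ _ := h1.trans h2
        _ = _ := by ring
    exact hr'.le.trans (Nat.le_of_mul_le_mul_left h3 (by positivity))

end Pool.Agent.Work.MP_b5d674_co.P
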