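import Pool.Agent.Work.MP_b5d674_co.P.Two
import Pool.Agent.Work.MP_b5d674_co.P.Bad
import Pool.Agent.Work.MP_b5d674_co.P.Code
import Pool.Agent.Work.MP_b5d674_co.P.Num
import Pool.Agent.Work.MP_b5d674_co.P.Nub
import Pool.Agent.Work.MP_b5d674_co.P.Nun

namespace Pool.Agent.Work.MP_b5d674_co.P

open Finset

variable {r K : ℕ} {ι L α : Type*}

theorem pack [Fintype α] [DecidableEq α] {J : Type*} (T : Finset J) (w : J → Fin r → α)
    (h : ∀ B : Finset (Fin r × α), B.card ≤ r → ∃ e : Fin r → α, (∀ i, (i, e i) ∉ B) ∧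
      ∀ j ∈ T, ∀ j' ∈ T, (∀ i, e i ≠ w j i) → (∀ i, e i ≠ w j' i) → j = j') :
    ∃ H : Finset (Fin r → α),
      (∀ F ⊆ H, F.card < T.card → ∃ t : Fin r → α, ∀ e ∈ F, ∃ i, e i = t i) ∧
      ∀ C : Finset (Fin r × α), (∀ e ∈ H, ∃ i, (i, e i) ∈ C) → r < C.card := by
  classical
  refine ⟨univ.filter fun e => ∀ j ∈ T, ∀ j' ∈ T,
    (∀ i, e i ≠ w j i) → (∀ i, e i ≠ w j' i) → j = j', fun F hF hc => ?_, fun C hC => ?_⟩
  · by_contra hn
    push Not at hn
    choose g hg1 hg2 using fun j => hn (w j)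
    have : T.card ≤ F.card := card_le_card_of_injOn g (fun j _ => hg1 j) fun j hj j' hj' e =>
      (mem_filter.1 (hF (hg1 j))).2 j hj j' hj' (hg2 j) (e ▸ hg2 j')
    omega
  · by_contra hn
    obtain ⟨e, h1, h2⟩ := h C (not_lt.1 hn)
    obtain ⟨i, hi⟩ := hC e (mem_filter.2 ⟨mem_univ _, h2⟩)
    exact h1 i hi

open Classical in
theorem good_card [Fintype ι] [Fintype L] (p : ι → Fin r → Bool)
    (Q : L → Fin K → Finset (Fin r)) (m a D : ℕ) (k : ι) {X Y : ℝ} (hY0 : 0 ≤ Y)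
    (hX : ∀ τ β, (((univ : Finset (Finset (Fin r))).filter
      fun S => (S ∩ Q τ β).card < a).card : ℝ) ≤ X)
    (hY : ∀ k', k' ≠ k → (Fintype.card ι : ℝ) * ((((univ : Finset (Fin r)).powersetCard m).filter
      fun S => 2 * (S ∩ dis p k k').card < (dis p k k').card + D).card : ℝ) ≤ Y) :
    (r.choose m : ℝ) ≤ (univ.filter (Good p Q m a D k)).card + (Fintype.card L * K) * X + Y := by
  set A : L × Fin K → Finset (Finset (Fin r)) :=
    fun z => univ.filter fun S => (S ∩ Q z.1 z.2).card < a with hA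
  set E : ι → Finset (Finset (Fin r)) := fun k' => (univ.powersetCard m).filter
    fun S => 2 * (S ∩ dis p k k').card < (dis p k k').card + D with hE
  have h1 : (univ : Finset (Fin r)).powersetCard m ⊆
      (univ.filter (Good p Q m a D k) ∪ univ.biUnion A) ∪ (univ.erase k).biUnion E := by
    intro S hS
    by_contra hc
    simp only [mem_union, mem_biUnion, not_or, not_exists, not_and, hA, hE, mem_filter, mem_univ,
      true_and, mem_erase, not_lt, forall_const, and_true] at hc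
    exact hc.1.1 ⟨(mem_powersetCard.1 hS).2, fun τ β => hc.1.2 (τ, β),
      fun k' hk' => hc.2 k' hk' hS⟩
  have h2 := (card_le_card h1).trans ((card_union_le _ _).trans
    (add_le_add ((card_union_le _ _).trans (add_le_add le_rfl card_biUnion_le)) card_biUnion_le))
  rw [card_powersetCard, card_univ, Fintype.card_fin] at h2
  have h3 : (r.choose m : ℝ) ≤ (univ.filter (Good p Q m a D k)).card +
      ∑ z, ((A z).card : ℝ) + ∑ k' ∈ univ.erase k, ((E k').card : ℝ) := by exact_mod_cast h2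
  have h4 : ∑ z, ((A z).card : ℝ) ≤ (Fintype.card L * K) * X := by
    refine (sum_le_card_nsmul _ _ X fun z _ => hX z.1 z.2).trans ?_
    simp
  have hn : (0 : ℝ) < Fintype.card ι := by
    have : Nonempty ι := ⟨k⟩
    exact_mod_cast Fintype.card_pos
  have h5 : ∑ k' ∈ univ.erase k, ((E k').card : ℝ) ≤ Y := by
    refine le_of_mul_le_mul_left ?_ hn
    rw [mul_sum]
    refine (sum_le_card_nsmul _ _ Y fun k' hk' => hY k' (mem_erase.1 hk').1).trans ?_
    rw [nsmul_eq_mul]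
    refine mul_le_mul_of_nonneg_right ?_ hY0
    exact_mod_cast (card_le_univ _)
  linarith

set_option maxHeartbeats 400000 in
theorem main : ∃ r₀ : ℕ, ∀ r ≥ r₀, ∃ H : Finset (Fin r → Fin (r + 1)),
    (∀ F ⊆ H, (F.card : ℝ) ≤ (r : ℝ) ^ ((1 : ℝ) / 23) * r.choose (r / 2) →
      ∃ t : Fin r → Fin (r + 1), ∀ e ∈ F, ∃ i, e i = t i) ∧
    ∀ C : Finset (Fin r × Fin (r + 1)), (∀ e ∈ H, ∃ i, (i, e i) ∈ C) → r < C.card := by
  classical
  obtain ⟨t₀, ht₀⟩ := exists_nat_gt (2 * (96 * Real.exp 40) ^ 23 + 48 * Real.exp 40 + 10 ^ 30)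
  refine ⟨t₀ ^ 22, fun r hr => ?_⟩
  obtain ⟨t, t1, t2⟩ : ∃ t : ℕ, t ^ 22 ≤ r ∧ r < (t + 1) ^ 22 :=
    ⟨_, Nat.pow_nthRoot_le (Or.inl (by norm_num)), Nat.lt_pow_nthRoot_add_one (by norm_num) r⟩
  have t3 : t₀ ≤ t := Nat.lt_succ_iff.1 (lt_of_pow_lt_pow_left' 22 (hr.trans_lt t2))
  have t3' : (t₀ : ℝ) ≤ t := by exact_mod_cast t3
  have e0 : 0 < Real.exp 40 := Real.exp_pos _
  have e1 : 0 < 2 * (96 * Real.exp 40) ^ 23 := by positivity
  have tA : 2 * (96 * Real.exp 40) ^ 23 < (t : ℝ) := by linarith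
  have tB : 48 * Real.exp 40 ≤ (t : ℝ) := by linarith
  have tC : (10 : ℝ) ^ 30 ≤ t := by linarith
  have tD : (1000 : ℝ) ≤ t := by linarith
  have tN : 1000 ≤ t := by exact_mod_cast tD
  have tpos : 0 < t := by omega
  have upos : 0 < 30 * t ^ 2 := Nat.mul_pos (by norm_num) (Nat.pow_pos tpos)
  obtain ⟨n1, n2, n3, n4⟩ := num_nat' t r tN t1 t2
  have r1 : (t : ℝ) ^ 22 ≤ r := by exact_mod_cast t1
  have r2 : (r : ℝ) ≤ 2 * (t : ℝ) ^ 22 := by exact_mod_cast n2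
  have rpos : 1 ≤ r := by omega
  obtain ⟨C0, hC0⟩ : ∃ C0 : ℝ, C0 = (r.choose (r / 2) : ℝ) := ⟨_, rfl⟩
  obtain ⟨Cm, hCm⟩ : ∃ Cm : ℝ, Cm = (r.choose (r / 2 + t ^ 12) : ℝ) := ⟨_, rfl⟩
  have C0pos : 0 < C0 := by
    rw [hC0]
    exact_mod_cast Nat.choose_pos (by omega)
  have Cmpos : 0 < Cm := by
    rw [hCm]
    exact_mod_cast Nat.choose_pos (by omega)
  have Cle : Cm ≤ C0 := by
    rw [hC0, hCm]
    exact_mod_cast Nat.choose_le_middle _ _
  have hL : C0 * Real.exp (-(2 * ((t : ℝ) ^ 12) ^ 2 / (r - 2 * (t : ℝ) ^ 12))) ≤ Cm := by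
    have := choose_low r (t ^ 12) n3
    rw [← hC0, ← hCm] at this
    push_cast at this
    exact this
  have hP : ((2 : ℝ) ^ r) ^ 2 ≤ 4 * r * C0 ^ 2 := by
    have := choose_half_low r rpos
    rwa [← hC0, show (4 : ℝ) ^ r = (2 ^ r) ^ 2 by rw [← pow_mul, mul_comm, pow_mul]; norm_num] at this
  have hC := num_ratio t r C0 Cm tD r1 C0pos hL
  obtain ⟨G, hG⟩ : ∃ G : ℝ, G = t / (48 * Real.exp 40) := ⟨_, rfl⟩
  have G1 : 1 ≤ G := by rw [hG, le_div_iff₀ (by positivity)]; linarith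
  have G2 : 1 ≤ G * C0 / Cm := by
    rw [le_div_iff₀ Cmpos, one_mul]
    exact Cle.trans (le_mul_of_one_le_left C0pos.le G1)
  obtain ⟨n, hn1, hn2⟩ : ∃ n : ℕ, G * C0 / Cm ≤ n ∧
      (n : ℝ) ≤ 2 * (t / (48 * Real.exp 40) * C0 / Cm) := by
    refine ⟨⌈G * C0 / Cm⌉₊, Nat.le_ceil _, ?_⟩
    have := Nat.ceil_lt_add_one (show 0 ≤ G * C0 / Cm by linarith)
    rw [← hG]
    linarith
  obtain ⟨χ, hχ⟩ := exists_code (t ^ 7) (t ^ 5) n (Nat.one_le_pow _ _ (by omega)) (by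
    have := num_code t C0 Cm n tD Cmpos hC hn2
    simpa only [Nat.cast_pow] using this)
  obtain ⟨K, hK⟩ : ∃ K : ℕ, K = r / (t ^ 7 * (10 * (30 * t ^ 2))) := ⟨_, rfl⟩
  rw [← hK] at n1
  have hKr : t ^ 7 * K * (10 * (30 * t ^ 2)) ≤ r := by
    rw [mul_right_comm, hK]
    exact Nat.mul_div_le _ _
  obtain ⟨ty, Q, q1, q2, q3, q4⟩ :=
    exists_cells r (t ^ 7) K (10 * (30 * t ^ 2)) (Nat.pow_pos tpos) hKr
  obtain ⟨p, hp⟩ : ∃ p : Fin n → Fin r → Bool, ∀ k i, p k i = χ k (ty i) := ⟨_, fun _ _ => rfl⟩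
  have hN : ∀ k k', k ≠ k' → r / 2 + t ^ 12 <
      (t ^ 7 + (univ.filter fun τ => χ k τ ≠ χ k' τ).card) * (K - 1) * (4 * (30 * t ^ 2)) ∧
      r ≤ 4 * (dis p k k').card ∧
      (r : ℝ) - (dis p k k').card ≤ r / 2 + 2 * r / (t : ℝ) ^ 2 := by
    intro k k' hk
    have h1 := q4 (univ.filter fun τ => χ k τ ≠ χ k' τ)
    have h2 : (univ.filter fun i => ty i ∈ univ.filter fun τ => χ k τ ≠ χ k' τ) = dis p k k' := by
      ext i
      simp only [dis, hp, mem_filter, mem_univ, true_and]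
    rw [h2, hK] at h1
    rw [hK]
    exact num_nat t r _ _ tN t1 (hχ k k' hk) h1
  have hgood : ∀ k, Cm / 2 ≤
      (univ.filter (Good p Q (r / 2 + t ^ 12) (4 * (30 * t ^ 2)) (600 * t ^ 9 + 2) k)).card := by
    intro k
    have h1 := good_card p Q (r / 2 + t ^ 12) (4 * (30 * t ^ 2)) (600 * t ^ 9 + 2) k
      (X := 5 * 2 ^ r * Real.exp (-(30 * (t : ℝ) ^ 2 / 6))) (Y := Cm / 4) (by linarith)
      (fun τ β => by
        have := cell_card (Q τ β) (30 * t ^ 2) upos (q1 τ β)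
        push_cast at this
        exact this)
      (fun k' hk' => by
        obtain ⟨-, a2, a3⟩ := hN k k' hk'.symm
        have b1 := bad_card (dis p k k') (t ^ 12) (600 * t ^ 9 + 2) (by omega) n4 rpos a2
        have b2 : ((dis p k k').card : ℝ) ≤ r := by
          have := card_le_univ (dis p k k')
          rw [Fintype.card_fin] at this
          exact_mod_cast this
        have b3 := num_core t r (r - (dis p k k').card) (2 ^ r) C0 Cm n tD r1 r2 (by linarith) a3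
          (pow_nonneg zero_le_two r) C0pos Cmpos hP hL hn2
        push_cast at b1
        rw [Fintype.card_fin]
        exact (mul_le_mul_of_nonneg_left b1 (Nat.cast_nonneg n)).trans b3)
    have h2 : ((Fintype.card (Fin (t ^ 7)) : ℝ) * K) ≤ r := by
      rw [Fintype.card_fin]
      have : t ^ 7 * K ≤ r :=
        (Nat.le_mul_of_pos_right _ (Nat.mul_pos (by norm_num) upos)).trans hKr
      exact_mod_cast this
    have h3 := num_cell t r (2 ^ r) C0 Cm _ tC r1 r2 (pow_nonneg zero_le_two r) C0pos hP hC h2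
    rw [← hCm] at h1
    linarith
  obtain ⟨H, H1, H2⟩ := pack (α := Fin (r + 1)) ((univ : Finset (Fin n)).sigma fun k =>
      univ.filter (Good p Q (r / 2 + t ^ 12) (4 * (30 * t ^ 2)) (600 * t ^ 9 + 2) k))
    (fun j => word ⟨0, by omega⟩ (fun s => if s then ⟨1, by omega⟩ else ⟨2, by omega⟩) p j.1 j.2)
    (fun B hB => by
      obtain ⟨e, h1, h2⟩ := key (α := Fin (r + 1)) (x := ⟨0, by omega⟩)
        (y := fun s => if s then ⟨1, by omega⟩ else ⟨2, by omega⟩) (p := p) (χ := χ) (Q := Q)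
        (m := r / 2 + t ^ 12) (a := 4 * (30 * t ^ 2)) (c := 10 * (30 * t ^ 2))
        (D := 600 * t ^ 9 + 2) (by simp)
        (fun s s' h => by cases s <;> cases s' <;> simp_all)
        (fun s => by cases s <;> simp) n1 (fun τ β => (q1 τ β).le) q2
        (fun k τ β i hi => by rw [hp, q3 τ β i hi])
        (fun k k' hk => by simpa only [Fintype.card_fin] using (hN k k' hk).1)
        (by rw [Fintype.card_fin]; exact le_of_eq (by ring)) B hB
      refine ⟨e, h1, ?_⟩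
      rintro ⟨k, S⟩ hj ⟨k', S'⟩ hj' a a'
      obtain ⟨rfl, rfl⟩ := h2 k S k' S' (mem_filter.1 (mem_sigma.1 hj).2).2
        (mem_filter.1 (mem_sigma.1 hj').2).2 a a'
      rfl)
  refine ⟨H, fun F hF hc => H1 F hF ?_, H2⟩
  have g1 := num_gain t r tA (Nat.cast_nonneg r) r2
  rw [← hG] at g1
  rw [← hC0] at hc
  have g2 : (n : ℝ) * (Cm / 2) ≤ (((univ : Finset (Fin n)).sigma fun k => univ.filter
      (Good p Q (r / 2 + t ^ 12) (4 * (30 * t ^ 2)) (600 * t ^ 9 + 2) k)).card : ℝ) := by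
    rw [card_sigma]
    push_cast
    refine le_trans ?_ (card_nsmul_le_sum _ _ (Cm / 2) fun k _ => hgood k)
    simp
  have g3 : G * C0 ≤ n * Cm := by rwa [div_le_iff₀ Cmpos] at hn1
  have g4 : (r : ℝ) ^ ((1 : ℝ) / 23) * C0 < G / 2 * C0 := mul_lt_mul_of_pos_right g1 C0pos
  have : (F.card : ℝ) < (((univ : Finset (Fin n)).sigma fun k => univ.filter
      (Good p Q (r / 2 + t ^ 12) (4 * (30 * t ^ 2)) (600 * t ^ 9 + 2) k)).card : ℝ) := by
    linarith
  exact_mod_cast this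

end Pool.Agent.Work.MP_b5d674_co.P
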