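import Mathlib

namespace Pool.Agent.Work.MP_b5d674_co.P

theorem Rat_exp (i : ℕ) (D : ℝ) :
    Real.exp (-(2 * ((i + 1 : ℕ) : ℝ) ^ 2 / D)) =
      Real.exp (-(2 * (i : ℝ) ^ 2 / D)) * Real.exp (-(2 * (2 * (i : ℝ) + 1) / D)) := by
  rw [← Real.exp_add]
  congr 1
  push_cast
  ring

/-- Gaussian lower bound away from the middle. -/
theorem choose_low (r μ : ℕ) (h : 2 * μ < r) :
    (r.choose (r / 2) : ℝ) * Real.exp (-(2 * (μ : ℝ) ^ 2 / ((r : ℝ) - 2 * μ))) ≤
      r.choose (r / 2 + μ) := by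
  have hD : (0 : ℝ) < (r : ℝ) - 2 * μ := by
    have : ((2 * μ : ℕ) : ℝ) < r := by exact_mod_cast h
    push_cast at this
    linarith
  generalize hc : r / 2 = c
  have c1 : (2 * c : ℝ) ≤ r := by exact_mod_cast (show 2 * c ≤ r by omega)
  have key : ∀ i ≤ μ, (r.choose c : ℝ) * Real.exp (-(2 * (i : ℝ) ^ 2 / ((r : ℝ) - 2 * μ))) ≤
      r.choose (c + i) := by
    intro i
    induction i with
    | zero => simp
    | succ i ih =>
      intro hi
      have h1 := ih (by omega)
      have h2 : ((r.choose (c + i + 1) : ℕ) : ℝ) * (c + i + 1) =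
          r.choose (c + i) * ((r : ℝ) - (c + i)) := by
        have := congrArg (Nat.cast : ℕ → ℝ) (Nat.choose_succ_right_eq r (c + i))
        rw [Nat.cast_mul, Nat.cast_mul, Nat.cast_sub (by omega)] at this
        push_cast at this
        exact this
      have i1 : (i : ℝ) + 1 ≤ μ := by exact_mod_cast hi
      have i0 : (0 : ℝ) ≤ i := Nat.cast_nonneg i
      have c0 : (0 : ℝ) ≤ c := Nat.cast_nonneg c
      obtain ⟨y, hy⟩ : ∃ y, y = 2 * (2 * (i : ℝ) + 1) / ((r : ℝ) - 2 * μ) := ⟨_, rfl⟩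
      have y0 : 0 ≤ y := by rw [hy]; positivity
      have y1 : y * ((r : ℝ) - 2 * μ) = 2 * (2 * i + 1) := by rw [hy]; field_simp
      have e1 : Real.exp (-y) * (y + 1) ≤ 1 := by
        have := mul_le_mul_of_nonneg_left (Real.add_one_le_exp y) (Real.exp_pos (-y)).le
        rwa [← Real.exp_add, neg_add_cancel, Real.exp_zero] at this
      have e2 : (c : ℝ) + i + 1 ≤ (y + 1) * ((r : ℝ) - (c + i)) := by nlinarith
      have e3 : Real.exp (-y) * ((c : ℝ) + i + 1) ≤ (r : ℝ) - (c + i) := by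
        have a := mul_le_mul_of_nonneg_left e2 (Real.exp_pos (-y)).le
        have b := mul_le_mul_of_nonneg_right e1 (show (0 : ℝ) ≤ (r : ℝ) - (c + i) by linarith)
        nlinarith
      rw [Rat_exp, ← hy, ← mul_assoc, ← add_assoc]
      refine le_of_mul_le_mul_right ?_ (show (0 : ℝ) < c + i + 1 by positivity)
      rw [h2, mul_assoc]
      exact mul_le_mul h1 e3 (by positivity) (Nat.cast_nonneg _)
  exact key μ le_rfl

/-- Gaussian upper bound away from the middle. -/
theorem choose_up (a s : ℕ) :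
    (a.choose ((a + 1) / 2 + s) : ℝ) ≤
      a.choose (a / 2) * Real.exp (-(2 * (s : ℝ) ^ 2 / ((a : ℝ) + 2 * s))) := by
  generalize hc : (a + 1) / 2 = c
  have c1 : (2 * c : ℝ) = a ∨ (2 * c : ℝ) = a + 1 := by
    rcases (show 2 * c = a ∨ 2 * c = a + 1 by omega) with h | h
    · exact Or.inl (by exact_mod_cast h)
    · exact Or.inr (by exact_mod_cast h)
  have key : ∀ i ≤ s, (a.choose (c + i) : ℝ) ≤
      a.choose (a / 2) * Real.exp (-(2 * (i : ℝ) ^ 2 / ((a : ℝ) + 2 * s))) := by
    intro i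
    induction i with
    | zero => simpa using Nat.choose_le_middle c a
    | succ i ih =>
      intro hi
      have h1 := ih (by omega)
      by_cases q : a < c + (i + 1)
      · rw [Nat.choose_eq_zero_of_lt q, Nat.cast_zero]
        positivity
      have h2 : ((a.choose (c + i + 1) : ℕ) : ℝ) * (c + i + 1) =
          a.choose (c + i) * ((a : ℝ) - (c + i)) := by
        have := congrArg (Nat.cast : ℕ → ℝ) (Nat.choose_succ_right_eq a (c + i))
        rw [Nat.cast_mul, Nat.cast_mul, Nat.cast_sub (by omega)] at this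
        push_cast at this
        exact this
      have i1 : (i : ℝ) + 1 ≤ s := by exact_mod_cast hi
      have i0 : (0 : ℝ) ≤ i := Nat.cast_nonneg i
      have c0 : (0 : ℝ) ≤ c := Nat.cast_nonneg c
      have a0 : (0 : ℝ) ≤ a := Nat.cast_nonneg a
      have q' : (c : ℝ) + (i + 1) ≤ a := by exact_mod_cast not_lt.1 q
      have hD : (0 : ℝ) < (a : ℝ) + 2 * s := by linarith
      obtain ⟨y, hy⟩ : ∃ y, y = 2 * (2 * (i : ℝ) + 1) / ((a : ℝ) + 2 * s) := ⟨_, rfl⟩
      have e1 : -y + 1 ≤ Real.exp (-y) := Real.add_one_le_exp _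
      have e2 : y * ((c : ℝ) + i + 1) ≤ 2 * c - a + 2 * i + 1 := by
        rw [hy, div_mul_eq_mul_div, div_le_iff₀ hD]
        rcases c1 with h | h <;> nlinarith
      have e3 : (a : ℝ) - (c + i) ≤ Real.exp (-y) * ((c : ℝ) + i + 1) := by
        have := mul_le_mul_of_nonneg_right e1 (show (0 : ℝ) ≤ c + i + 1 by positivity)
        nlinarith
      rw [Rat_exp, ← hy, ← mul_assoc, ← add_assoc]
      refine le_of_mul_le_mul_right ?_ (show (0 : ℝ) < c + i + 1 by positivity)
      rw [h2, mul_assoc _ (Real.exp (-y))]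
      exact mul_le_mul h1 e3 (by linarith) (by positivity)
  exact key s le_rfl

end Pool.Agent.Work.MP_b5d674_co.P
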