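import Pool.Agent.Work.MP_b5d674_co.P.Key

namespace Pool.Agent.Work.MP_b5d674_co.P

open Finset

variable {r K : ℕ} {ι L α : Type*}

/-- Two blocks of type `τ` meet `Z` in fewer than `a` points. -/
def Opn (Q : L → Fin K → Finset (Fin r)) (a : ℕ) (Z : Finset (Fin r)) (τ : L) : Prop :=
  ∃ β β', β ≠ β' ∧ (Z ∩ Q τ β).card < a ∧ (Z ∩ Q τ β').card < a

theorem closed_sum {Q : L → Fin K → Finset (Fin r)} {a : ℕ} {Z : Finset (Fin r)} {τ : L}
    (h : ¬ Opn Q a Z τ) : (K - 1) * a ≤ ∑ β, (Z ∩ Q τ β).card := by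
  classical
  have h1 : (univ.filter fun β => (Z ∩ Q τ β).card < a).card ≤ 1 := by
    rw [card_le_one]
    intro β hβ β' hβ'
    by_contra hne
    exact h ⟨β, β', hne, (mem_filter.1 hβ).2, (mem_filter.1 hβ').2⟩
  have h2 := card_filter_add_card_filter_not (s := (univ : Finset (Fin K)))
    (fun β => (Z ∩ Q τ β).card < a)
  rw [card_univ, Fintype.card_fin] at h2
  calc (K - 1) * a ≤ (univ.filter fun β => ¬ (Z ∩ Q τ β).card < a).card * a :=
        Nat.mul_le_mul_right _ (by omega)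
    _ = ∑ _β ∈ univ.filter fun β => ¬ (Z ∩ Q τ β).card < a, a := by simp
    _ ≤ ∑ β ∈ univ.filter fun β => ¬ (Z ∩ Q τ β).card < a, (Z ∩ Q τ β).card :=
        sum_le_sum fun β hβ => not_lt.1 (mem_filter.1 hβ).2
    _ ≤ _ := sum_le_sum_of_subset (filter_subset _ _)

theorem closed_card [Fintype L] [DecidableEq L] {Q : L → Fin K → Finset (Fin r)} {a : ℕ}
    (hQd : ∀ τ β τ' β', (τ, β) ≠ (τ', β') → Disjoint (Q τ β) (Q τ' β')) (Z : Finset (Fin r))
    (A : Finset L) (h : ∀ τ ∈ A, ¬ Opn Q a Z τ) : A.card * ((K - 1) * a) ≤ Z.card := by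
  calc A.card * ((K - 1) * a) = ∑ _τ ∈ A, (K - 1) * a := by simp
    _ ≤ ∑ τ ∈ A, ∑ β, (Z ∩ Q τ β).card := sum_le_sum fun τ hτ => closed_sum (h τ hτ)
    _ = ∑ z ∈ A ×ˢ (univ : Finset (Fin K)), (Z ∩ Q z.1 z.2).card := by rw [sum_product]
    _ = ((A ×ˢ (univ : Finset (Fin K))).biUnion fun z => Z ∩ Q z.1 z.2).card := by
        rw [card_biUnion]
        intro z _ z' _ hz
        exact (hQd z.1 z.2 z'.1 z'.2 hz).mono inter_subset_right inter_subset_right
    _ ≤ Z.card := card_le_card (biUnion_subset.2 fun z _ => inter_subset_left)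

theorem pick_blocks (hK : 2 ≤ K) (Q : L → Fin K → Finset (Fin r)) (a : ℕ)
    (Z : Bool → Finset (Fin r)) (τ : L) : ∃ b : Bool → Fin K, b true ≠ b false ∧
      ∀ s, Opn Q a (Z s) τ → (Z s ∩ Q τ (b s)).card < a := by
  have key : ∀ s, ∃ β β' : Fin K, β ≠ β' ∧ (Opn Q a (Z s) τ →
      (Z s ∩ Q τ β).card < a ∧ (Z s ∩ Q τ β').card < a) := by
    intro s
    by_cases h : Opn Q a (Z s) τ
    · obtain ⟨β, β', h1, h2⟩ := h
      exact ⟨β, β', h1, fun _ => h2⟩
    · exact ⟨⟨0, by omega⟩, ⟨1, by omega⟩, by simp, fun h' => absurd h' h⟩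
  obtain ⟨β1, β0, -, h1⟩ := key true
  obtain ⟨β2, β3, h23, h2⟩ := key false
  by_cases h : β1 = β2
  · refine ⟨fun s => if s then β1 else β3, by simpa [h] using h23, fun s hs => ?_⟩
    cases s
    · exact (h2 hs).2
    · exact (h1 hs).1
  · refine ⟨fun s => if s then β1 else β2, by simpa using h, fun s hs => ?_⟩
    cases s
    · exact (h2 hs).1
    · exact (h1 hs).1

section
variable [DecidableEq α] [Fintype L] [DecidableEq L] {x : α} {y : Bool → α}
  {B : Finset (Fin r × α)} {f : Fin r → α} {p : ι → Fin r → Bool} {χ : ι → L → Bool}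
  {Q : L → Fin K → Finset (Fin r)} {m a c D : ℕ}

theorem one_bad (hQd : ∀ τ β τ' β', (τ, β) ≠ (τ', β') → Disjoint (Q τ β) (Q τ' β'))
    (Z : Bool → Finset (Fin r)) {k k' : ι} (h : ∀ τ, ¬ Opn Q a (Z (χ k τ)) τ)
    (h' : ∀ τ, ¬ Opn Q a (Z (χ k' τ)) τ) :
    (Fintype.card L + (univ.filter fun τ => χ k τ ≠ χ k' τ).card) * (K - 1) * a ≤
      (Z true).card + (Z false).card := by
  have h1 : ∀ s, (univ.filter fun τ => χ k τ = s ∨ χ k' τ = s).card * ((K - 1) * a) ≤
      (Z s).card := fun s => closed_card hQd _ _ fun τ hτ => by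
    rcases (mem_filter.1 hτ).2 with e | e
    · exact e ▸ h τ
    · exact e ▸ h' τ
  have h2 := card_union_add_card_inter (univ.filter fun τ => χ k τ = true ∨ χ k' τ = true)
    (univ.filter fun τ => χ k τ = false ∨ χ k' τ = false)
  have h3 : (univ.filter fun τ => χ k τ = true ∨ χ k' τ = true) ∪
      (univ.filter fun τ => χ k τ = false ∨ χ k' τ = false) = univ := by
    ext τ
    cases e : χ k τ <;> simp [e]
  have h4 : (univ.filter fun τ => χ k τ = true ∨ χ k' τ = true) ∩
      (univ.filter fun τ => χ k τ = false ∨ χ k' τ = false) =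
      univ.filter fun τ => χ k τ ≠ χ k' τ := by
    ext τ
    cases e : χ k τ <;> cases e' : χ k' τ <;> simp [e, e']
  rw [h3, h4, card_univ] at h2
  rw [h2, mul_assoc, add_mul]
  exact add_le_add (h1 true) (h1 false)

theorem case_two (hK : 2 ≤ K) (hQc : ∀ τ β, (Q τ β).card ≤ c)
    (hQd : ∀ τ β τ' β', (τ, β) ≠ (τ', β') → Disjoint (Q τ β) (Q τ' β'))
    (hp : ∀ k τ β, ∀ i ∈ Q τ β, p k i = χ k τ)
    (c1 : ∀ k k', k ≠ k' →
      m < (Fintype.card L + (univ.filter fun τ => χ k τ ≠ χ k' τ).card) * (K - 1) * a)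
    (hb : (blk B (y true)).card + (blk B (y false)).card ≤ m)
    (hd : 2 * Fintype.card L * c < (blk B (y true) ∩ blk B (y false)).card) :
    ∃ g : Fin r → Bool, ∀ k S, Good p Q m a D k S →
      ¬ ∀ i, edge y B f g i ≠ word x y p k S i := by
  classical
  choose b hb1 hb2 using pick_blocks hK Q a fun s => blk B (y s)
  obtain ⟨g0, hg0⟩ : ∃ g0 : Fin r → Bool, ∀ k,
      (∀ τ, ¬ Opn Q a (blk B (y (χ k τ))) τ) → g0 = p k := by
    by_cases h : ∃ k, ∀ τ, ¬ Opn Q a (blk B (y (χ k τ))) τ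
    · obtain ⟨k0, h0⟩ := h
      refine ⟨p k0, fun k hk => ?_⟩
      by_cases e : k0 = k
      · rw [e]
      · have := one_bad hQd (fun s => blk B (y s)) h0 hk
        have := c1 k0 k e
        omega
    · exact ⟨fun _ => true, fun k hk => absurd ⟨k, hk⟩ h⟩
  refine ⟨fun i => if ∃ τ, i ∈ Q τ (b τ true) then true
    else if ∃ τ, i ∈ Q τ (b τ false) then false else g0 i, fun k S hS h => ?_⟩
  by_cases hk : ∀ τ, ¬ Opn Q a (blk B (y (χ k τ))) τ
  · have e := hg0 k hk
    have h1 : S ⊆ ((univ : Finset (L × Bool)).biUnion fun z => Q z.1 (b z.1 z.2)) ∪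
        (blk B (y true) ∪ blk B (y false)) := by
      intro i hi
      rw [mem_union]
      by_cases w1 : ∃ τ, i ∈ Q τ (b τ true)
      · obtain ⟨τ, hτ⟩ := w1
        exact Or.inl (mem_biUnion.2 ⟨(τ, true), mem_univ _, hτ⟩)
      by_cases w2 : ∃ τ, i ∈ Q τ (b τ false)
      · obtain ⟨τ, hτ⟩ := w2
        exact Or.inl (mem_biUnion.2 ⟨(τ, false), mem_univ _, hτ⟩)
      have := miss_blk h hi (by simp only [if_neg w1, if_neg w2, e])
      right
      rw [mem_union]
      cases e' : p k i <;> rw [e'] at this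
      · exact Or.inr this
      · exact Or.inl this
    have h2 : ((univ : Finset (L × Bool)).biUnion fun z => Q z.1 (b z.1 z.2)).card ≤
        2 * Fintype.card L * c := by
      refine (card_biUnion_le_card_mul _ _ c fun z _ => hQc _ _).trans ?_
      simp [mul_comm]
    have h3 := (card_le_card h1).trans (card_union_le _ _)
    have h4 := card_union_add_card_inter (blk B (y true)) (blk B (y false))
    have h5 := hS.1
    omega
  · push Not at hk
    obtain ⟨τ, hτ⟩ := hk
    have h1 := hb2 τ _ hτ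
    have h2 := hS.2.1 τ (b τ (χ k τ))
    have h3 : S ∩ Q τ (b τ (χ k τ)) ⊆ blk B (y (χ k τ)) ∩ Q τ (b τ (χ k τ)) := by
      intro i hi
      rw [mem_inter] at hi ⊢
      refine ⟨?_, hi.2⟩
      have e := hp k τ _ i hi.2
      rw [← e]
      refine miss_blk h hi.1 ?_
      rw [e]
      cases e' : χ k τ
      · have hi2 := hi.2
        rw [e'] at hi2
        have w1 : ¬ ∃ τ', i ∈ Q τ' (b τ' true) := by
          rintro ⟨τ', hτ'⟩
          refine disjoint_left.1 (hQd τ' (b τ' true) τ (b τ false) fun e2 => ?_) hτ' hi2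
          obtain ⟨e3, e4⟩ := Prod.mk.inj e2
          subst e3
          exact hb1 _ e4
        simp only [if_neg w1, if_pos (⟨τ, hi2⟩ : ∃ τ, i ∈ Q τ (b τ false))]
      · have hi2 := hi.2
        rw [e'] at hi2
        simp only [if_pos (⟨τ, hi2⟩ : ∃ τ, i ∈ Q τ (b τ true))]
    have h4 := card_le_card h3
    omega

/-- Every small set of vertices is avoided by an edge that misses at most one word. -/
theorem key [Fintype α] (hα : r < Fintype.card α) (hy : Function.Injective y)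
    (hx : ∀ s, y s ≠ x) (hK : 2 ≤ K) (hQc : ∀ τ β, (Q τ β).card ≤ c)
    (hQd : ∀ τ β τ' β', (τ, β) ≠ (τ', β') → Disjoint (Q τ β) (Q τ' β'))
    (hp : ∀ k τ β, ∀ i ∈ Q τ β, p k i = χ k τ)
    (c1 : ∀ k k', k ≠ k' →
      m < (Fintype.card L + (univ.filter fun τ => χ k τ ≠ χ k' τ).card) * (K - 1) * a)
    (c2 : 2 * Fintype.card L * c + 2 ≤ D) (B : Finset (Fin r × α)) (hB : B.card ≤ r) :
    ∃ e : Fin r → α, (∀ i, (i, e i) ∉ B) ∧ ∀ k S k' S', Good p Q m a D k S →
      Good p Q m a D k' S' → (∀ i, e i ≠ word x y p k S i) → (∀ i, e i ≠ word x y p k' S' i) →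
      k = k' ∧ S = S' := by
  choose f hf using exists_free hα hB
  by_cases h0 : (blk B x).card + m < r
  · refine ⟨fun i => if i ∈ blk B x then f i else x, fun i => ?_, fun k S k' S' hS _ h _ => ?_⟩
    · by_cases hi : i ∈ blk B x
      · simpa only [if_pos hi] using hf i
      · simp only [if_neg hi]
        exact fun h => hi (mem_blk.2 h)
    · exfalso
      have h1 : (blk B x)ᶜ ⊆ S := by
        intro i hi
        by_contra hn
        apply h i
        simp only [if_neg (mem_compl.1 hi), word, if_neg hn]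
      have h2 := card_le_card h1
      rw [card_compl, Fintype.card_fin, hS.1] at h2
      omega
  have hs := blk_sum B hy hx
  have hb : (blk B (y true)).card + (blk B (y false)).card ≤ m := by omega
  by_cases hd : (blk B (y true) ∩ blk B (y false)).card + 2 ≤ D
  · obtain ⟨g, hg⟩ := case_one (x := x) (f := f) (p := p) (Q := Q) (a := a) hb hd
    exact ⟨_, edge_free hf g, hg⟩
  · obtain ⟨g, hg⟩ := case_two (x := x) (f := f) (D := D) hK hQc hQd hp c1 hb (by omega)
    exact ⟨_, edge_free hf g, fun k S _ _ hS _ h _ => absurd h (hg k S hS)⟩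

end

end Pool.Agent.Work.MP_b5d674_co.P
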